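import Mathlib

/-!
# An averaging argument: voltages with few copies of `K_{r,r}`
-/

set_option autoImplicit false

namespace Pool.Agent.Y422.TG

open Finset

/-- few functions have prescribed values at given different places -/
theorem card_prescribed {I J Z : Type} [Fintype I] [DecidableEq I] [Fintype J] [DecidableEq J]
    [Fintype Z] [AddCommGroup Z] (ι : I → J) (hι : Function.Injective ι) (g : I → Z)
    (S : Finset (J → Z)) (hS : ∀ f ∈ S, ∀ i, f (ι i) = g i) :
    S.card * Fintype.card Z ^ Fintype.card I ≤ Fintype.card (J → Z) := by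
  have h1 : Fintype.card Z ^ Fintype.card I = (univ : Finset (I → Z)).card := by
    rw [card_univ, Fintype.card_fun]
  have h2 : Fintype.card (J → Z) = (univ : Finset (J → Z)).card := rfl
  rw [h1, h2, ← card_product]
  refine card_le_card_of_injOn (fun p => p.1 + Function.extend ι p.2 0)
    (fun _ _ => mem_coe.2 (mem_univ _)) ?_
  rintro ⟨f, h⟩ hf ⟨f', h'⟩ hf' heq
  have hf1 : ∀ i, f (ι i) = g i := hS f (mem_product.1 (mem_coe.1 hf)).1
  have hf1' : ∀ i, f' (ι i) = g i := hS f' (mem_product.1 (mem_coe.1 hf')).1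
  have heq' : f + Function.extend ι h 0 = f' + Function.extend ι h' 0 := heq
  have hh : h = h' := by
    funext i
    have := congrFun heq' (ι i)
    simp only [Pi.add_apply, hι.extend_apply, hf1, hf1'] at this
    exact add_left_cancel this
  subst hh
  rw [add_right_cancel heq']

/-- averaging -/
theorem averaging {A B : Type} [Fintype A] [Fintype B] [Nonempty A] (P : A → B → Prop) (c : ℕ)
    (h : ∀ (b : B) (S : Finset A), (∀ a ∈ S, P a b) → S.card * c ≤ Fintype.card A) :
    ∃ a, ∀ S : Finset B, (∀ b ∈ S, P a b) → S.card * c ≤ Fintype.card B := by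
  classical
  by_contra hcon
  push Not at hcon
  have h1 : ∑ _a : A, Fintype.card B < ∑ a : A, (univ.filter (fun b => P a b)).card * c := by
    apply sum_lt_sum_of_nonempty univ_nonempty
    intro a _
    obtain ⟨S, hS, hlt⟩ := hcon a
    refine lt_of_lt_of_le hlt (Nat.mul_le_mul_right _ (card_le_card ?_))
    intro b hb
    exact mem_filter.2 ⟨mem_univ _, hS b hb⟩
  have h2 : ∑ a : A, (univ.filter (fun b => P a b)).card * c =
      ∑ b : B, (univ.filter (fun a => P a b)).card * c := by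
    rw [← sum_mul, ← sum_mul]
    congr 1
    simp only [card_filter]
    exact sum_comm
  have h3 : ∑ b : B, (univ.filter (fun a => P a b)).card * c ≤ ∑ _b : B, Fintype.card A :=
    sum_le_sum fun b _ => h b _ (fun a ha => (mem_filter.1 ha).2)
  rw [h2] at h1
  have h4 := lt_of_lt_of_le h1 h3
  rw [sum_const, sum_const, card_univ, card_univ, smul_eq_mul, smul_eq_mul, mul_comm] at h4
  exact lt_irrefl _ h4

/-- a voltage assignment and a small set of edges which meets all copies of `K_{r,r}` -/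
theorem exists_voltage (D N r : ℕ) [NeZero N] (hr : 0 < r) :
    ∃ (f : Fin D × Fin D → ZMod N) (R : Finset (Fin D × Fin D × ZMod N)),
      R.card * N ^ (r * r) ≤ (D * N) ^ r * (D * N) ^ r ∧
      ∀ x y : Fin r → Fin D × ZMod N, (∀ k k', (x k).1 = (x k').1 → k = k') →
        (∀ k k', (y k).1 = (y k').1 → k = k') →
        (∀ k l, (y l).2 - (x k).2 = f ((x k).1, (y l).1)) →
        ((x ⟨0, hr⟩).1, (y ⟨0, hr⟩).1, (x ⟨0, hr⟩).2) ∈ R := by
  classical
  obtain ⟨f, hf⟩ := averaging
    (A := Fin D × Fin D → ZMod N) (B := (Fin r → Fin D × ZMod N) × (Fin r → Fin D × ZMod N))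
    (fun f xy => (∀ k k', (xy.1 k).1 = (xy.1 k').1 → k = k') ∧
      (∀ k k', (xy.2 k).1 = (xy.2 k').1 → k = k') ∧
      ∀ k l, (xy.2 l).2 - (xy.1 k).2 = f ((xy.1 k).1, (xy.2 l).1)) (N ^ (r * r)) (by
    rintro ⟨x, y⟩ S hS
    rcases S.eq_empty_or_nonempty with rfl | ⟨f0, hf0⟩
    · simp
    · obtain ⟨hx, hy, -⟩ := hS f0 hf0
      have hx' : ∀ k k', (x k).1 = (x k').1 → k = k' := hx
      have hy' : ∀ k k', (y k).1 = (y k').1 → k = k' := hy
      have h1 := card_prescribed (Z := ZMod N)
        (fun i : Fin r × Fin r => ((x i.1).1, (y i.2).1))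
        (by
          intro i i' h
          have h' := Prod.mk.inj h
          exact Prod.ext (hx' _ _ h'.1) (hy' _ _ h'.2))
        (fun i => (y i.2).2 - (x i.1).2) S (fun f hf i => ((hS f hf).2.2 i.1 i.2).symm)
      rw [ZMod.card, Fintype.card_prod, Fintype.card_fin] at h1
      exact h1)
  rw [Fintype.card_prod, Fintype.card_fun, Fintype.card_prod, Fintype.card_fin, Fintype.card_fin,
    ZMod.card] at hf
  refine ⟨f, (univ.filter (fun xy : (Fin r → Fin D × ZMod N) × (Fin r → Fin D × ZMod N) =>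
    (∀ k k', (xy.1 k).1 = (xy.1 k').1 → k = k') ∧
      (∀ k k', (xy.2 k).1 = (xy.2 k').1 → k = k') ∧
      ∀ k l, (xy.2 l).2 - (xy.1 k).2 = f ((xy.1 k).1, (xy.2 l).1))).image
      (fun xy => ((xy.1 ⟨0, hr⟩).1, (xy.2 ⟨0, hr⟩).1, (xy.1 ⟨0, hr⟩).2)), ?_, ?_⟩
  · exact (Nat.mul_le_mul_right _ card_image_le).trans (hf _ (fun b hb => (mem_filter.1 hb).2))
  · intro x y hx hy h
    exact mem_image.2 ⟨(x, y), mem_filter.2 ⟨mem_univ _, hx, hy, h⟩, rfl⟩

end Pool.Agent.Y422.TG
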