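import Pool.Agent.Y422.TZ.Upper
import Pool.Agent.W834.NG.Graph

/-!
# Symmetric designs: mixing, and the incidence graph
-/

set_option autoImplicit false

namespace Pool.Agent.Y422.TG.Design

open Finset Pool.Agent.Y422.TW Pool.Agent.W834.NG

/-- the incidence matrix -/
def M {v : ℕ} (B : Fin v → Finset (Fin v)) (x j : Fin v) : ℝ := if x ∈ B j then 1 else 0

theorem M_sq {v : ℕ} (B : Fin v → Finset (Fin v)) (x j : Fin v) : M B x j * M B x j = M B x j := by
  unfold M; split_ifs <;> norm_num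

theorem M_mul {v : ℕ} (B : Fin v → Finset (Fin v)) (x y j : Fin v) :
    M B x j * M B y j = if x ∈ B j ∧ y ∈ B j then 1 else 0 := by
  unfold M
  by_cases h1 : x ∈ B j <;> by_cases h2 : y ∈ B j <;> simp [h1, h2]

variable {lam v k : ℕ} (B : Fin v → Finset (Fin v)) (hk : ∀ i, (B i).card = k)
  (hB : ∀ x y : Fin v, x ≠ y → (univ.filter (fun i => x ∈ B i ∧ y ∈ B i)).card = lam)

include hk in
theorem col (j : Fin v) : ∑ x, M B x j = k := by
  unfold M
  rw [Finset.sum_boole, ← hk j]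
  congr 2
  ext x; simp

include hB in
theorem pair {x y : Fin v} (h : x ≠ y) : ∑ j, M B x j * M B y j = lam := by
  rw [Finset.sum_congr rfl (fun j _ => M_mul B x y j), Finset.sum_boole, hB x y h]

include hk hB in
theorem row_mul (x : Fin v) : ((k : ℝ) - 1) * ∑ j, M B x j = lam * ((v : ℝ) - 1) := by
  have h1 : ∑ y, ∑ j, M B x j * M B y j = k * ∑ j, M B x j := by
    rw [Finset.sum_comm, Finset.mul_sum]
    refine Finset.sum_congr rfl (fun j _ => ?_)
    rw [← Finset.mul_sum, col B hk j, mul_comm]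
  have h2 : ∑ y, ∑ j, M B x j * M B y j = ∑ j, M B x j + lam * ((v : ℝ) - 1) := by
    rw [← Finset.add_sum_erase univ _ (mem_univ x)]
    congr 1
    · exact Finset.sum_congr rfl (fun j _ => M_sq B x j)
    · rw [Finset.sum_congr rfl (fun y hy => pair B hB (Finset.ne_of_mem_erase hy).symm),
        Finset.sum_const, Finset.card_erase_of_mem (mem_univ x), Finset.card_univ, Fintype.card_fin,
        nsmul_eq_mul]
      have : 1 ≤ v := x.pos
      push_cast [Nat.cast_sub this]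
      ring
  linarith

include hk hB in
theorem param (hv : 1 ≤ v) : ((k : ℝ) - 1) * k = lam * ((v : ℝ) - 1) := by
  have h1 : ∑ x, ((k : ℝ) - 1) * ∑ j, M B x j = ∑ _x : Fin v, lam * ((v : ℝ) - 1) :=
    Finset.sum_congr rfl (fun x _ => row_mul B hk hB x)
  rw [← Finset.mul_sum, Finset.sum_comm, Finset.sum_congr rfl (fun j _ => col B hk j),
    Finset.sum_const, Finset.sum_const, Finset.card_univ, Fintype.card_fin, nsmul_eq_mul,
    nsmul_eq_mul] at h1
  have hv0 : (v : ℝ) ≠ 0 := by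
    have : (1 : ℝ) ≤ v := by exact_mod_cast hv
    linarith
  apply mul_left_cancel₀ hv0
  linarith

include hk hB in
theorem row (hlam : 1 ≤ lam) (x : Fin v) : ∑ j, M B x j = k := by
  have hv : 1 ≤ v := x.pos
  have h1 := param B hk hB hv
  have h2 := row_mul B hk hB x
  by_cases h : (k : ℝ) = 1
  · rw [h] at h1
    have hl : (lam : ℝ) ≠ 0 := by
      have : (1 : ℝ) ≤ lam := by exact_mod_cast hlam
      linarith
    have h3 : (v : ℝ) - 1 = 0 := by
      apply mul_left_cancel₀ hl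
      linarith
    have h4 : v = 1 := by
      have : (v : ℝ) = 1 := by linarith
      exact_mod_cast this
    subst h4
    have h5 := col B hk 0
    rw [Fin.sum_univ_one] at h5 ⊢
    rw [Subsingleton.elim x 0]
    exact h5
  · apply mul_left_cancel₀ (sub_ne_zero.2 h)
    rw [h2, h1]

include hk hB in
theorem sum_f (hlam : 1 ≤ lam) (P : Finset (Fin v)) : ∑ j, ∑ x ∈ P, M B x j = k * P.card := by
  rw [Finset.sum_comm, Finset.sum_congr rfl (fun x _ => row B hk hB hlam x), Finset.sum_const,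
    nsmul_eq_mul, mul_comm]

include hk hB in
theorem sum_sq (hlam : 1 ≤ lam) (P : Finset (Fin v)) :
    ∑ j, (∑ x ∈ P, M B x j) ^ 2 = P.card * k + P.card * ((P.card : ℝ) - 1) * lam := by
  have h1 : ∀ j, (∑ x ∈ P, M B x j) ^ 2 = ∑ x ∈ P, ∑ y ∈ P, M B x j * M B y j := by
    intro j
    rw [sq, Finset.sum_mul_sum]
  rw [Finset.sum_congr rfl (fun j _ => h1 j), Finset.sum_comm]
  have h2 : ∀ x ∈ P, ∑ j, ∑ y ∈ P, M B x j * M B y j = k + ((P.card : ℝ) - 1) * lam := by
    intro x hx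
    rw [Finset.sum_comm, ← Finset.add_sum_erase P _ hx]
    congr 1
    · rw [Finset.sum_congr rfl (fun j _ => M_sq B x j), row B hk hB hlam x]
    · rw [Finset.sum_congr rfl (fun y hy => pair B hB (Finset.ne_of_mem_erase hy).symm),
        Finset.sum_const, Finset.card_erase_of_mem hx, nsmul_eq_mul]
      have : 1 ≤ P.card := Finset.card_pos.2 ⟨x, hx⟩
      push_cast [Nat.cast_sub this]
      ring
  rw [Finset.sum_congr rfl h2, Finset.sum_const, nsmul_eq_mul]
  ring

include hk hB in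
/-- mixing -/
theorem mixing (hlam : 1 ≤ lam) (P Q : Finset (Fin v)) :
    3 * k * P.card * Q.card ≤ 4 * (v : ℝ) ^ 2 + 4 * v * ∑ j ∈ Q, ∑ x ∈ P, M B x j := by
  rcases Nat.eq_zero_or_pos v with rfl | hv
  · have : P = ∅ := Subsingleton.elim _ _
    subst this
    simp
  set a : ℝ := (P.card : ℝ) with ha
  set b : ℝ := (Q.card : ℝ) with hb
  set f : Fin v → ℝ := fun j => ∑ x ∈ P, M B x j with hf
  have hf0 : ∀ j, 0 ≤ f j := fun j => Finset.sum_nonneg (fun x _ => by unfold M; split_ifs <;> norm_num)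
  have hav : a ≤ v := by
    have : P.card ≤ v := by simpa using Finset.card_le_univ P
    rw [ha]
    exact_mod_cast this
  have ha0 : 0 ≤ a := Nat.cast_nonneg _
  have hb0 : 0 ≤ b := Nat.cast_nonneg _
  have hk0 : (0 : ℝ) ≤ k := Nat.cast_nonneg _
  have hl0 : (0 : ℝ) ≤ lam := Nat.cast_nonneg _
  have hv0 : (0 : ℝ) < v := by exact_mod_cast hv
  have hp := param B hk hB hv
  have h1 : ∑ j, (v * f j - k * a) ^ 2 ≤ (v : ℝ) ^ 2 * (k * a) := by
    have e : ∀ j, (v * f j - k * a) ^ 2 = (v : ℝ) ^ 2 * f j ^ 2 - 2 * v * k * a * f j + k ^ 2 * a ^ 2 := by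
      intro j; ring
    rw [Finset.sum_congr rfl (fun j _ => e j), Finset.sum_add_distrib, Finset.sum_sub_distrib,
      ← Finset.mul_sum, ← Finset.mul_sum, sum_f B hk hB hlam P, sum_sq B hk hB hlam P,
      Finset.sum_const, Finset.card_univ, Fintype.card_fin, nsmul_eq_mul]
    have h3 : (v : ℝ) ^ 2 * (a * k + a * (a - 1) * lam) - 2 * v * k * a * (k * a) +
        v * (k ^ 2 * a ^ 2) = v ^ 2 * (k * a) - v ^ 2 * a * lam - v * a ^ 2 * (k - lam) := by
      have h4 : (k : ℝ) ^ 2 = lam * v + k - lam := by linarith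
      have h5 : (v : ℝ) ^ 2 * (a * k + a * (a - 1) * lam) - 2 * v * k * a * (k * a) +
        v * (k ^ 2 * a ^ 2) = v ^ 2 * (a * k + a * (a - 1) * lam) - v * a ^ 2 * k ^ 2 := by ring
      rw [h5, h4]; ring
    rw [h3]
    have h6 : v * a ^ 2 * lam ≤ v ^ 2 * a * lam := by
      have : v * a ^ 2 * lam = v * a * lam * a := by ring
      have : v ^ 2 * a * lam = v * a * lam * v := by ring
      have : 0 ≤ v * a * lam := by positivity
      nlinarith
    have h7 : 0 ≤ v * a ^ 2 * k := by positivity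
    nlinarith
  have h2 : ∑ j ∈ Q, (v * f j - k * a) ^ 2 ≤ ∑ j, (v * f j - k * a) ^ 2 :=
    Finset.sum_le_sum_of_subset_of_nonneg (Finset.subset_univ _) (fun _ _ _ => sq_nonneg _)
  have h3 : 0 ≤ ∑ j ∈ Q, ((k * a) + 2 * (v * f j - k * a)) ^ 2 :=
    Finset.sum_nonneg (fun _ _ => sq_nonneg _)
  have h4 : ∑ j ∈ Q, ((k * a) + 2 * (v * f j - k * a)) ^ 2 =
      b * (k * a) ^ 2 + 4 * (k * a) * (v * ∑ j ∈ Q, f j - b * (k * a)) +
        4 * ∑ j ∈ Q, (v * f j - k * a) ^ 2 := by
    have e : ∀ j, ((k * a) + 2 * (v * f j - k * a)) ^ 2 =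
        (k * a) ^ 2 + 4 * (k * a) * (v * f j - k * a) + 4 * (v * f j - k * a) ^ 2 := by
      intro j; ring
    rw [Finset.sum_congr rfl (fun j _ => e j), Finset.sum_add_distrib, Finset.sum_add_distrib,
      ← Finset.mul_sum, ← Finset.mul_sum, Finset.sum_sub_distrib, ← Finset.mul_sum,
      Finset.sum_const, Finset.sum_const, nsmul_eq_mul, nsmul_eq_mul]
  have hE : 0 ≤ ∑ j ∈ Q, f j := Finset.sum_nonneg (fun j _ => hf0 j)
  have hka : 0 ≤ (k : ℝ) * a := by positivity
  rcases hka.eq_or_lt with h0 | h0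
  · have : 3 * (k : ℝ) * a * b = 0 := by
      calc 3 * (k : ℝ) * a * b = 3 * b * (k * a) := by ring
        _ = 0 := by rw [← h0]; ring
    rw [this]
    positivity
  · rw [h4] at h3
    have h5 : 0 ≤ (k * a) * (4 * v * ∑ j ∈ Q, f j + 4 * (v : ℝ) ^ 2 - 3 * (k * a) * b) := by
      nlinarith
    have h6 := nonneg_of_mul_nonneg_right h5 h0
    nlinarith

include hk hB in
/-- two blocks of a symmetric design meet in `lam` points -/
theorem dual (hlam : 1 ≤ lam) {i j : Fin v} (hij : i ≠ j) : (B i ∩ B j).card = lam := by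
  have hv : 1 ≤ v := i.pos
  have hp := param B hk hB hv
  have hs1 := sum_f B hk hB hlam (B i)
  have hs2 := sum_sq B hk hB hlam (B i)
  rw [hk i] at hs1 hs2
  have hf : ∀ l, ∑ x ∈ B i, M B x l = ((B i ∩ B l).card : ℝ) := by
    intro l
    unfold M
    rw [Finset.sum_boole, Finset.filter_mem_eq_inter]
  have hi : ∑ x ∈ B i, M B x i = k := by
    rw [hf i, Finset.inter_self, hk i]
  rw [← Finset.add_sum_erase univ _ (mem_univ i), hi] at hs1 hs2
  have h0 : ∑ l ∈ univ.erase i, (∑ x ∈ B i, M B x l - lam) ^ 2 = 0 := by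
    have e : ∀ l, (∑ x ∈ B i, M B x l - (lam : ℝ)) ^ 2 =
        (∑ x ∈ B i, M B x l) ^ 2 - 2 * lam * (∑ x ∈ B i, M B x l) + lam ^ 2 := by
      intro l; ring
    rw [Finset.sum_congr rfl (fun l _ => e l), Finset.sum_add_distrib, Finset.sum_sub_distrib,
      ← Finset.mul_sum, Finset.sum_const, Finset.card_erase_of_mem (mem_univ i), Finset.card_univ,
      Fintype.card_fin, nsmul_eq_mul]
    push_cast [Nat.cast_sub hv]
    have g1 : ∑ l ∈ univ.erase i, (∑ x ∈ B i, M B x l) = lam * ((v : ℝ) - 1) := by linarith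
    have g2 : ∑ l ∈ univ.erase i, (∑ x ∈ B i, M B x l) ^ 2 = lam * (lam * ((v : ℝ) - 1)) := by
      rw [← hp]; linarith
    rw [g1, g2]; ring
  have h1 := (Finset.sum_eq_zero_iff_of_nonneg (fun l _ => sq_nonneg _)).1 h0 j
    (Finset.mem_erase.2 ⟨hij.symm, mem_univ j⟩)
  have h2 : ∑ x ∈ B i, M B x j - (lam : ℝ) = 0 := by
    exact pow_eq_zero_iff (two_ne_zero) |>.1 h1
  rw [hf j] at h2
  have h3 : ((B i ∩ B j).card : ℝ) = lam := by linarith
  exact_mod_cast h3

/-- the incidence graph between the points of `P` and the blocks of `Q` -/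
def incidence (P Q : Finset (Fin v)) : SimpleGraph ({x // x ∈ P} ⊕ {j // j ∈ Q}) where
  Adj a b := ∃ (x : {x // x ∈ P}) (j : {j // j ∈ Q}), x.1 ∈ B j.1 ∧
    ((a = Sum.inl x ∧ b = Sum.inr j) ∨ (a = Sum.inr j ∧ b = Sum.inl x))
  symm := ⟨by
    rintro a b ⟨x, j, h, h'⟩
    exact ⟨x, j, h, h'.symm.imp And.symm And.symm⟩⟩
  loopless := ⟨by
    rintro a ⟨x, j, h, ⟨h1, h2⟩ | ⟨h1, h2⟩⟩
    · rw [h1] at h2; cases h2
    · rw [h1] at h2; cases h2⟩

theorem inc_adj {P Q : Finset (Fin v)} (x : {x // x ∈ P}) (j : {j // j ∈ Q}) :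
    (incidence B P Q).Adj (Sum.inl x) (Sum.inr j) ↔ x.1 ∈ B j.1 := by
  constructor
  · rintro ⟨x', j', h, ⟨h1, h2⟩ | ⟨h1, h2⟩⟩
    · cases h1; cases h2; exact h
    · cases h1
  · intro h
    exact ⟨x, j, h, Or.inl ⟨rfl, rfl⟩⟩

theorem inc_ll {P Q : Finset (Fin v)} (x y : {x // x ∈ P}) :
    ¬ (incidence B P Q).Adj (Sum.inl x) (Sum.inl y) := by
  rintro ⟨x', j', h, ⟨h1, h2⟩ | ⟨h1, h2⟩⟩
  · cases h2
  · cases h1

theorem inc_rr {P Q : Finset (Fin v)} (x y : {x // x ∈ Q}) :
    ¬ (incidence B P Q).Adj (Sum.inr x) (Sum.inr y) := by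
  rintro ⟨x', j', h, ⟨h1, h2⟩ | ⟨h1, h2⟩⟩
  · cases h1
  · cases h2

include hk hB in
theorem noK (hlam : 1 ≤ lam) (P Q : Finset (Fin v)) : NoK (incidence B P Q) 2 (lam + 1) := by
  rintro ⟨x, y, hx, hy, h⟩
  have hne : x 0 ≠ x 1 := fun h' => absurd (hx h') (by decide)
  rcases h0 : x 0 with p | i
  · -- two points
    have hy' : ∀ l, ∃ j : {j // j ∈ Q}, y l = Sum.inr j := by
      intro l
      rcases hl : y l with q | j
      · have := h 0 l
        rw [h0, hl] at this
        exact (inc_ll B p q this).elim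
      · exact ⟨j, rfl⟩
    choose j hj using hy'
    rcases h1 : x 1 with p' | i'
    · have hpp : p.1 ≠ p'.1 := by
        intro h'
        apply hne
        rw [h0, h1, Subtype.ext h']
      have hcard := hB p.1 p'.1 hpp
      have hsub : univ.image (fun l => (j l).1) ⊆
          univ.filter (fun i => p.1 ∈ B i ∧ p'.1 ∈ B i) := by
        intro z hz
        obtain ⟨l, _, rfl⟩ := Finset.mem_image.1 hz
        rw [Finset.mem_filter]
        refine ⟨mem_univ _, ?_, ?_⟩
        · have := h 0 l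
          rw [h0, hj l] at this
          exact (inc_adj B p (j l)).1 this
        · have := h 1 l
          rw [h1, hj l] at this
          exact (inc_adj B p' (j l)).1 this
      have hinj : Function.Injective (fun l => (j l).1) := by
        intro l l' hl
        apply hy
        rw [hj l, hj l', Subtype.ext hl]
      have := Finset.card_le_card hsub
      rw [Finset.card_image_of_injective _ hinj, Finset.card_univ, Fintype.card_fin, hcard] at this
      omega
    · have := h 1 0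
      rw [h1, hj 0] at this
      exact inc_rr B i' (j 0) this
  · have hy' : ∀ l, ∃ q : {x // x ∈ P}, y l = Sum.inl q := by
      intro l
      rcases hl : y l with q | j
      · exact ⟨q, rfl⟩
      · have := h 0 l
        rw [h0, hl] at this
        exact (inc_rr B i j this).elim
    choose q hq using hy'
    rcases h1 : x 1 with p' | i'
    · have := h 1 0
      rw [h1, hq 0] at this
      exact inc_ll B p' (q 0) this
    · have hpp : i.1 ≠ i'.1 := by
        intro h'
        apply hne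
        rw [h0, h1, Subtype.ext h']
      have hcard := dual B hk hB hlam hpp
      have hsub : univ.image (fun l => (q l).1) ⊆ B i.1 ∩ B i'.1 := by
        intro z hz
        obtain ⟨l, _, rfl⟩ := Finset.mem_image.1 hz
        rw [Finset.mem_inter]
        refine ⟨?_, ?_⟩
        · have := (h 0 l).symm
          rw [h0, hq l] at this
          exact (inc_adj B (q l) i).1 this
        · have := (h 1 l).symm
          rw [h1, hq l] at this
          exact (inc_adj B (q l) i').1 this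
      have hinj : Function.Injective (fun l => (q l).1) := by
        intro l l' hl
        apply hy
        rw [hq l, hq l', Subtype.ext hl]
      have := Finset.card_le_card hsub
      rw [Finset.card_image_of_injective _ hinj, Finset.card_univ, Fintype.card_fin, hcard] at this
      omega

theorem edges (P Q : Finset (Fin v)) :
    ∑ j ∈ Q, ∑ x ∈ P, M B x j ≤ (Nat.card (incidence B P Q).edgeSet : ℝ) := by
  have h1 : ∑ j ∈ Q, ∑ x ∈ P, M B x j =
      (((P ×ˢ Q).filter (fun z => z.1 ∈ B z.2)).card : ℝ) := by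
    rw [Finset.card_filter, Finset.sum_product_right]
    push_cast
    rfl
  rw [h1]
  have h2 : Nat.card {z : {x // x ∈ P} × {j // j ∈ Q} // z.1.1 ∈ B z.2.1} ≤
      Nat.card (incidence B P Q).edgeSet := by
    refine Nat.card_le_card_of_injective
      (fun z => (⟨s(Sum.inl z.1.1, Sum.inr z.1.2), by
        rw [SimpleGraph.mem_edgeSet]
        exact (inc_adj B z.1.1 z.1.2).2 z.2⟩ : (incidence B P Q).edgeSet)) ?_
    rintro ⟨⟨x, j⟩, h⟩ ⟨⟨x', j'⟩, h'⟩ he
    have he' := congrArg Subtype.val he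
    simp only [Sym2.eq_iff] at he'
    rcases he' with ⟨e1, e2⟩ | ⟨e1, e2⟩
    · cases e1; cases e2; rfl
    · cases e1
  have h3 : ((P ×ˢ Q).filter (fun z => z.1 ∈ B z.2)).card ≤
      Nat.card {z : {x // x ∈ P} × {j // j ∈ Q} // z.1.1 ∈ B z.2.1} := by
    rw [← Nat.card_eq_finsetCard]
    refine Nat.card_le_card_of_injective
      (fun z => (⟨(⟨z.1.1, (Finset.mem_product.1 (Finset.mem_filter.1 z.2).1).1⟩,
        ⟨z.1.2, (Finset.mem_product.1 (Finset.mem_filter.1 z.2).1).2⟩),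
        (Finset.mem_filter.1 z.2).2⟩ :
        {z : {x // x ∈ P} × {j // j ∈ Q} // z.1.1 ∈ B z.2.1})) ?_
    rintro ⟨⟨x, j⟩, h⟩ ⟨⟨x', j'⟩, h'⟩ he
    have he' := congrArg Subtype.val he
    obtain ⟨e1, e2⟩ := Prod.mk.inj he'
    have e3 : x = x' := congrArg Subtype.val e1
    have e4 : j = j' := congrArg Subtype.val e2
    subst e3; subst e4; rfl
  exact_mod_cast h3.trans h2

include hk hB in
/-- **Main estimate.** -/
theorem main (hlam : 1 ≤ lam) (P Q : Finset (Fin v)) (w : ℕ)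
    (h : TwinWidthLE (incidence B P Q) w) :
    3 * (k : ℝ) * P.card * Q.card ≤
      4 * (v : ℝ) ^ 2 + 4 * (lam + 4 * w + 5) * v * (P.card + Q.card) := by
  have h1 := mixing B hk hB hlam P Q
  have h2 := Pool.Agent.Y422.TZ.tww_edges (incidence B P Q) w 2 (lam + 1) (by omega) h
    (free_of_noK (noK B hk hB hlam P Q) (lam + 1) le_rfl)
  have h3 := edges B P Q
  rw [Fintype.card_sum, Fintype.card_coe, Fintype.card_coe] at h2
  have h4 : (Nat.card (incidence B P Q).edgeSet : ℝ) ≤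
      (lam + 4 * w + 5) * (P.card + Q.card) := by
    have : Nat.card (incidence B P Q).edgeSet ≤ (lam + 4 * w + 5) * (P.card + Q.card) := by
      refine h2.trans (le_of_eq ?_)
      ring
    exact_mod_cast this
  have hv : (0 : ℝ) ≤ v := Nat.cast_nonneg _
  calc 3 * (k : ℝ) * P.card * Q.card ≤
        4 * (v : ℝ) ^ 2 + 4 * v * ∑ j ∈ Q, ∑ x ∈ P, M B x j := h1
    _ ≤ 4 * (v : ℝ) ^ 2 + 4 * v * ((lam + 4 * w + 5) * (P.card + Q.card)) := by
        have := h3.trans h4
        gcongr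
    _ = 4 * (v : ℝ) ^ 2 + 4 * (lam + 4 * w + 5) * v * (P.card + Q.card) := by ring

include hk hB in
theorem main_eps (hlam : 1 ≤ lam) (hv : 1 ≤ v) (P Q : Finset (Fin v)) (w : ℕ) (ε : ℝ) (hε : 0 < ε)
    (hP : ε * v ≤ P.card) (hQ : ε * v ≤ Q.card) (h : TwinWidthLE (incidence B P Q) w) :
    3 * (k : ℝ) ≤ 4 / ε ^ 2 + 8 * (lam + 4 * w + 5) / ε := by
  have h1 := main B hk hB hlam P Q w h
  set a : ℝ := (P.card : ℝ) with ha
  set b : ℝ := (Q.card : ℝ) with hb
  have hv0 : (0 : ℝ) < v := by exact_mod_cast hv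
  have ha0 : 0 < a := lt_of_lt_of_le (by positivity) hP
  have hb0 : 0 < b := lt_of_lt_of_le (by positivity) hQ
  have hva : (v : ℝ) ≤ a / ε := by rw [le_div_iff₀ hε]; linarith
  have hvb : (v : ℝ) ≤ b / ε := by rw [le_div_iff₀ hε]; linarith
  have h2 : (v : ℝ) ^ 2 ≤ a * b / ε ^ 2 := by
    calc (v : ℝ) ^ 2 = v * v := sq _
      _ ≤ (a / ε) * (b / ε) := mul_le_mul hva hvb hv0.le (by positivity)
      _ = a * b / ε ^ 2 := by field_simp
  have h3 : (v : ℝ) * (a + b) ≤ 2 * (a * b) / ε := by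
    calc (v : ℝ) * (a + b) = v * a + v * b := by ring
      _ ≤ (b / ε) * a + (a / ε) * b := by gcongr
      _ = 2 * (a * b) / ε := by ring
  have h4 : (a * b) * (3 * (k : ℝ)) ≤ (a * b) * (4 / ε ^ 2 + 8 * (lam + 4 * w + 5) / ε) := by
    calc (a * b) * (3 * (k : ℝ)) = 3 * k * a * b := by ring
      _ ≤ 4 * (v : ℝ) ^ 2 + 4 * (lam + 4 * w + 5) * v * (a + b) := h1
      _ = 4 * (v : ℝ) ^ 2 + 4 * (lam + 4 * w + 5) * (v * (a + b)) := by ring
      _ ≤ 4 * (a * b / ε ^ 2) + 4 * (lam + 4 * w + 5) * (2 * (a * b) / ε) := by gcongr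
      _ = (a * b) * (4 / ε ^ 2 + 8 * (lam + 4 * w + 5) / ε) := by ring
  exact le_of_mul_le_mul_left h4 (by positivity)

end Pool.Agent.Y422.TG.Design

namespace Pool.Agent.Y422.TG.Design

open Finset

theorem v_le {lam v k : ℕ} (B : Fin v → Finset (Fin v)) (hk : ∀ i, (B i).card = k)
    (hB : ∀ x y : Fin v, x ≠ y → (univ.filter (fun i => x ∈ B i ∧ y ∈ B i)).card = lam)
    (hlam : 1 ≤ lam) (hv : 1 ≤ v) : v ≤ k ^ 2 + 1 := by
  have h1 := param B hk hB hv
  have h2 : (1 : ℝ) ≤ lam := by exact_mod_cast hlam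
  have h3 : (0 : ℝ) ≤ (v : ℝ) - 1 := by
    have : (1 : ℝ) ≤ v := by exact_mod_cast hv
    linarith
  have h4 : (0 : ℝ) ≤ k := Nat.cast_nonneg _
  have h5 : (v : ℝ) - 1 ≤ lam * ((v : ℝ) - 1) := by nlinarith
  have h6 : (v : ℝ) ≤ (k : ℝ) ^ 2 + 1 := by nlinarith
  exact_mod_cast h6

end Pool.Agent.Y422.TG.Design
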