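import Pool.Agent.Y422.TG.Design

/-!
# The first contraction of a symmetric design
-/

set_option autoImplicit false

namespace Pool.Agent.Y422.TG.Design

open Finset Pool.Agent.Y422.TW

open Classical in
theorem tww_first {V : Type} [Fintype V] (G : SimpleGraph V) (w D : ℕ)
    (h : TwinWidthLE G w) (hV : 2 ≤ Fintype.card V)
    (hpriv : ∀ u v, u ≠ v →
      D ≤ (univ.filter (fun x => G.Adj u x ∧ ¬ G.Adj v x ∧ x ≠ v)).card) : 2 * D ≤ w := by
  unfold TwinWidthLE at h
  rcases Relation.ReflTransGen.cases_head h with h0 | ⟨Q, hQ, -⟩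
  · exfalso
    obtain ⟨a, b, hab⟩ := Fintype.exists_pair_of_one_lt_card (show 1 < Fintype.card V by omega)
    have h1 : ({a} : Finset V) ∈ ({univ} : Finset (Finset V)) := by
      rw [← h0]
      exact mem_image.2 ⟨a, mem_univ _, rfl⟩
    rw [mem_singleton] at h1
    have h4 : b ∈ ({a} : Finset V) := by rw [h1]; exact mem_univ _
    rw [mem_singleton] at h4
    exact hab h4.symm
  · obtain ⟨⟨A, hA, B, hB, hAB, hQe⟩, hred⟩ := hQ
    obtain ⟨u, -, rfl⟩ := mem_image.1 hA
    obtain ⟨v, -, rfl⟩ := mem_image.1 hB
    have huv : u ≠ v := fun h => hAB (by rw [h])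
    have hmem : ({u} ∪ {v} : Finset V) ∈ Q := by
      rw [hQe]
      exact mem_insert_self _ _
    have h1 := hred _ hmem
    have h2 : ((univ.filter (fun x => G.Adj u x ∧ ¬ G.Adj v x ∧ x ≠ v)) ∪
        (univ.filter (fun x => G.Adj v x ∧ ¬ G.Adj u x ∧ x ≠ u))).card ≤ w := by
      refine le_trans ?_ h1
      refine card_le_card_of_injOn (fun x => {x}) ?_ (fun x _ y _ h => singleton_injective h)
      intro x hx
      have hx' : x ∈ (univ.filter (fun x => G.Adj u x ∧ ¬ G.Adj v x ∧ x ≠ v)) ∪
        (univ.filter (fun x => G.Adj v x ∧ ¬ G.Adj u x ∧ x ≠ u)) := mem_coe.1 hx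
      have key : x ≠ u ∧ x ≠ v ∧ ((G.Adj u x ∧ ¬ G.Adj v x) ∨ (G.Adj v x ∧ ¬ G.Adj u x)) := by
        rcases mem_union.1 hx' with hx1 | hx1
        · obtain ⟨-, a1, a2, a3⟩ := mem_filter.1 hx1
          exact ⟨(G.ne_of_adj a1).symm, a3, Or.inl ⟨a1, a2⟩⟩
        · obtain ⟨-, a1, a2, a3⟩ := mem_filter.1 hx1
          exact ⟨a3, (G.ne_of_adj a1).symm, Or.inr ⟨a1, a2⟩⟩
      obtain ⟨k1, k2, k3⟩ := key
      refine mem_coe.2 (mem_filter.2 ⟨?_, ?_, ?_⟩)
      · rw [hQe]
        refine mem_insert_of_mem (mem_erase.2 ⟨?_, mem_erase.2 ⟨?_, mem_image.2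
          ⟨x, mem_univ _, rfl⟩⟩⟩)
        · exact fun h => k2 (singleton_injective h)
        · exact fun h => k1 (singleton_injective h)
      · intro h
        have h' : ({x} : Finset V) = {u} ∪ {v} := h
        have h3 : u ∈ ({x} : Finset V) := by rw [h']; simp
        exact k1 (mem_singleton.1 h3).symm
      · intro hh
        have hu : u ∈ ({u} ∪ {v} : Finset V) := by simp
        have hv : v ∈ ({u} ∪ {v} : Finset V) := by simp
        have hx0 : x ∈ ({x} : Finset V) := mem_singleton_self x
        rcases hh with hh | hh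
        · rcases k3 with k3 | k3
          · exact k3.2 (hh v hv x hx0)
          · exact k3.2 (hh u hu x hx0)
        · rcases k3 with k3 | k3
          · exact hh u hu x hx0 k3.1
          · exact hh v hv x hx0 k3.1
    rw [card_union_of_disjoint] at h2
    · have h3 := hpriv u v huv
      have h4 := hpriv v u huv.symm
      omega
    · rw [disjoint_left]
      intro x hx hx2
      exact (mem_filter.1 hx).2.2.1 (mem_filter.1 hx2).2.1

variable {lam v k : ℕ} (B : Fin v → Finset (Fin v)) (hk : ∀ i, (B i).card = k)
  (hB : ∀ x y : Fin v, x ≠ y → (univ.filter (fun i => x ∈ B i ∧ y ∈ B i)).card = lam)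

include hk hB in
theorem row_nat (hlam : 1 ≤ lam) (x : Fin v) : (univ.filter (fun j => x ∈ B j)).card = k := by
  have h := row B hk hB hlam x
  unfold M at h
  rw [Finset.sum_boole] at h
  exact_mod_cast h

open Classical in
include hk hB in
theorem whole (hlam : 1 ≤ lam) (hv : 1 ≤ v) (w : ℕ)
    (h : TwinWidthLE (incidence B univ univ) w) : 2 * (k - lam) ≤ w := by
  refine tww_first _ w (k - lam) h ?_ ?_
  · rw [Fintype.card_sum, Fintype.card_coe, card_univ, Fintype.card_fin]
    omega
  · intro a b hab
    rcases a with p | i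
    · -- `a` is a point: blocks through `p`
      have hinj : Function.Injective (fun j : Fin v => (Sum.inr ⟨j, mem_univ j⟩ :
          {x // x ∈ (univ : Finset (Fin v))} ⊕ {j // j ∈ (univ : Finset (Fin v))})) := by
        intro j j' hj
        exact congrArg Subtype.val (Sum.inr_injective hj)
      have hr := row_nat B hk hB hlam p.1
      rcases b with q | i'
      · have hpq : p.1 ≠ q.1 := fun h' => hab (by rw [Subtype.ext h'])
        have h1 := hB p.1 q.1 hpq
        have h2 : (univ.filter (fun j => p.1 ∈ B j)).card ≤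
            (univ.filter (fun i => p.1 ∈ B i ∧ q.1 ∈ B i)).card +
              (univ.filter (fun j => p.1 ∈ B j ∧ q.1 ∉ B j)).card := by
          refine (card_le_card ?_).trans (card_union_le _ _)
          intro j hj
          have hj' := (mem_filter.1 hj).2
          by_cases hc : q.1 ∈ B j
          · exact mem_union_left _ (mem_filter.2 ⟨mem_univ _, hj', hc⟩)
          · exact mem_union_right _ (mem_filter.2 ⟨mem_univ _, hj', hc⟩)
        have h3 : (univ.filter (fun j => p.1 ∈ B j ∧ q.1 ∉ B j)).card ≤ (univ.filter (fun x =>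
            (incidence B univ univ).Adj (Sum.inl p) x ∧
            ¬ (incidence B univ univ).Adj (Sum.inl q) x ∧ x ≠ Sum.inl q)).card := by
          refine card_le_card_of_injOn _ ?_ (hinj.injOn)
          intro j hj
          have hj' := (mem_filter.1 (mem_coe.1 hj)).2
          refine mem_coe.2 (mem_filter.2 ⟨mem_univ _, (inc_adj B p ⟨j, mem_univ j⟩).2 hj'.1, ?_, ?_⟩)
          · exact fun hc => hj'.2 ((inc_adj B q ⟨j, mem_univ j⟩).1 hc)
          · exact fun hc => by cases hc
        refine le_trans ?_ (le_trans h3 (le_of_eq ?_))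
        · omega
        · congr
      · have h2 : (univ.filter (fun j => p.1 ∈ B j)).card ≤
            ({i'.1} : Finset (Fin v)).card +
              (univ.filter (fun j => p.1 ∈ B j ∧ j ≠ i'.1)).card := by
          refine (card_le_card ?_).trans (card_union_le _ _)
          intro j hj
          have hj' := (mem_filter.1 hj).2
          by_cases hc : j = i'.1
          · exact mem_union_left _ (mem_singleton.2 hc)
          · exact mem_union_right _ (mem_filter.2 ⟨mem_univ _, hj', hc⟩)
        rw [card_singleton] at h2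
        have h3 : (univ.filter (fun j => p.1 ∈ B j ∧ j ≠ i'.1)).card ≤ (univ.filter (fun x =>
            (incidence B univ univ).Adj (Sum.inl p) x ∧
            ¬ (incidence B univ univ).Adj (Sum.inr i') x ∧ x ≠ Sum.inr i')).card := by
          refine card_le_card_of_injOn _ ?_ (hinj.injOn)
          intro j hj
          have hj' := (mem_filter.1 (mem_coe.1 hj)).2
          refine mem_coe.2 (mem_filter.2 ⟨mem_univ _, (inc_adj B p ⟨j, mem_univ j⟩).2 hj'.1, ?_, ?_⟩)
          · exact fun hc => inc_rr B _ _ hc
          · exact fun hc => hj'.2 (congrArg Subtype.val (Sum.inr_injective hc))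
        refine le_trans ?_ (le_trans h3 (le_of_eq ?_))
        · omega
        · congr
    · -- `a` is a block
      have hinj : Function.Injective (fun j : Fin v => (Sum.inl ⟨j, mem_univ j⟩ :
          {x // x ∈ (univ : Finset (Fin v))} ⊕ {j // j ∈ (univ : Finset (Fin v))})) := by
        intro j j' hj
        exact congrArg Subtype.val (Sum.inl_injective hj)
      have hr := hk i.1
      rcases b with q | i'
      · have h2 : (B i.1).card ≤ ({q.1} : Finset (Fin v)).card + ((B i.1).filter (· ≠ q.1)).card := by
          refine (card_le_card ?_).trans (card_union_le _ _)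
          intro j hj
          by_cases hc : j = q.1
          · exact mem_union_left _ (mem_singleton.2 hc)
          · exact mem_union_right _ (mem_filter.2 ⟨hj, hc⟩)
        rw [card_singleton] at h2
        have h3 : ((B i.1).filter (· ≠ q.1)).card ≤ (univ.filter (fun x =>
            (incidence B univ univ).Adj (Sum.inr i) x ∧
            ¬ (incidence B univ univ).Adj (Sum.inl q) x ∧ x ≠ Sum.inl q)).card := by
          refine card_le_card_of_injOn _ ?_ (hinj.injOn)
          intro j hj
          have hj' := mem_filter.1 (mem_coe.1 hj)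
          refine mem_coe.2 (mem_filter.2 ⟨mem_univ _,
            ((inc_adj B ⟨j, mem_univ j⟩ i).2 hj'.1).symm, ?_, ?_⟩)
          · exact fun hc => inc_ll B _ _ hc
          · exact fun hc => hj'.2 (congrArg Subtype.val (Sum.inl_injective hc))
        refine le_trans ?_ (le_trans h3 (le_of_eq ?_))
        · omega
        · congr
      · have hpq : i.1 ≠ i'.1 := fun h' => hab (by rw [Subtype.ext h'])
        have h1 := dual B hk hB hlam hpq
        have h2 : (B i.1).card ≤ (B i.1 ∩ B i'.1).card + ((B i.1).filter (· ∉ B i'.1)).card := by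
          refine (card_le_card ?_).trans (card_union_le _ _)
          intro j hj
          by_cases hc : j ∈ B i'.1
          · exact mem_union_left _ (mem_inter.2 ⟨hj, hc⟩)
          · exact mem_union_right _ (mem_filter.2 ⟨hj, hc⟩)
        have h3 : ((B i.1).filter (· ∉ B i'.1)).card ≤ (univ.filter (fun x =>
            (incidence B univ univ).Adj (Sum.inr i) x ∧
            ¬ (incidence B univ univ).Adj (Sum.inr i') x ∧ x ≠ Sum.inr i')).card := by
          refine card_le_card_of_injOn _ ?_ (hinj.injOn)
          intro j hj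
          have hj' := mem_filter.1 (mem_coe.1 hj)
          refine mem_coe.2 (mem_filter.2 ⟨mem_univ _,
            ((inc_adj B ⟨j, mem_univ j⟩ i).2 hj'.1).symm, ?_, ?_⟩)
          · exact fun hc => hj'.2 ((inc_adj B ⟨j, mem_univ j⟩ i').1 hc.symm)
          · exact fun hc => by cases hc
        refine le_trans ?_ (le_trans h3 (le_of_eq ?_))
        · omega
        · congr

end Pool.Agent.Y422.TG.Design
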