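import Pool.Agent.Y422.TZ.Upper
import Pool.Agent.H663R5.BF.Struct

/-!
# Discrepancy of sparse set systems of small twin-width
-/

set_option autoImplicit false

namespace Pool.Agent.Y422.TG.Disc

open Finset Pool.Agent.Y422.TW H294BF

/-- the incidence graph of a set system -/
def incidence {n m : ℕ} (S : Fin m → Finset (Fin n)) : SimpleGraph (Fin n ⊕ Fin m) where
  Adj a b := ∃ (x : Fin n) (j : Fin m), x ∈ S j ∧
    ((a = Sum.inl x ∧ b = Sum.inr j) ∨ (a = Sum.inr j ∧ b = Sum.inl x))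
  symm := ⟨by
    rintro a b ⟨x, j, h, h'⟩
    exact ⟨x, j, h, h'.symm.imp And.symm And.symm⟩⟩
  loopless := ⟨by
    rintro a ⟨x, j, h, ⟨h1, h2⟩ | ⟨h1, h2⟩⟩
    · rw [h1] at h2; cases h2
    · rw [h1] at h2; cases h2⟩

theorem count {n m : ℕ} (S : Fin m → Finset (Fin n)) (w s t : ℕ) (hs : 1 ≤ s)
    (h : TwinWidthLE (incidence S) w)
    (hfree : (completeBipartiteGraph (Fin s) (Fin t)).Free (incidence S))
    (X : Finset (Fin n)) (T : Finset (Fin m)) :
    ∑ i ∈ T, (X.filter (· ∈ S i)).card ≤ (t + 2 * s * (w + 1)) * (X.card + T.card) := by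
  classical
  have h1 := Pool.Agent.Y422.TZ.edges_le (incidence S) _
    (Pool.Agent.Y422.TZ.small_degree (incidence S) w s t hs h hfree) _ (X.disjSum T) rfl
  rw [Finset.card_disjSum] at h1
  have h1' : ((incidence S).edgeFinset.filter (fun e => ∀ v ∈ e, v ∈ X.disjSum T)).card ≤
      (t + 2 * s * (w + 1)) * (X.card + T.card) := by convert h1
  refine le_trans ?_ h1'
  have h2 : ∑ i ∈ T, (X.filter (· ∈ S i)).card =
      ((X ×ˢ T).filter (fun z => z.1 ∈ S z.2)).card := by
    rw [Finset.card_filter, Finset.sum_product_right]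
    exact Finset.sum_congr rfl (fun i _ => Finset.card_filter _ _)
  rw [h2]
  refine Finset.card_le_card_of_injOn
    (fun z => (s(Sum.inl z.1, Sum.inr z.2) : Sym2 (Fin n ⊕ Fin m))) ?_ ?_
  · intro z hz
    obtain ⟨hz1, hz2⟩ := Finset.mem_filter.1 (Finset.mem_coe.1 hz)
    obtain ⟨hz3, hz4⟩ := Finset.mem_product.1 hz1
    rw [Finset.mem_coe, Finset.mem_filter]
    refine ⟨?_, ?_⟩
    · rw [SimpleGraph.mem_edgeFinset, SimpleGraph.mem_edgeSet]
      exact ⟨z.1, z.2, hz2, Or.inl ⟨rfl, rfl⟩⟩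
    · intro v hv
      rcases Sym2.mem_iff.1 hv with rfl | rfl
      · exact Finset.inl_mem_disjSum.2 hz3
      · exact Finset.inr_mem_disjSum.2 hz4
  · rintro ⟨x, j⟩ _ ⟨x', j'⟩ _ he
    simp only [Sym2.eq_iff] at he
    rcases he with ⟨e1, e2⟩ | ⟨e1, e2⟩
    · cases e1; cases e2; rfl
    · cases e1

/-- **Main estimate.** -/
theorem disc {n m : ℕ} (S : Fin m → Finset (Fin n)) (w s t : ℕ) (hs : 1 ≤ s)
    (h : TwinWidthLE (incidence S) w)
    (hfree : (completeBipartiteGraph (Fin s) (Fin t)).Free (incidence S)) (Y : Finset (Fin n)) :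
    ∃ χ : Fin n → ℤ, (∀ i, χ i = 1 ∨ χ i = -1) ∧
      ∀ j, |∑ i ∈ S j ∩ Y, χ i| ≤ 2 * ((t : ℤ) + 2 * s * (w + 1)) := by
  classical
  set D : ℕ := t + 2 * s * (w + 1) with hD
  obtain ⟨x, hx⟩ := hall_signing
    (fun (i : Fin m) (j : Fin n) => if j ∈ S i ∩ Y then (1 : ℝ) else 0)
    (fun _ => 2 * (D : ℝ)) (fun _ => by positivity) (by
      intro X hX
      have e : ∀ i : Fin m, ∑ j ∈ X, |if j ∈ S i ∩ Y then (1 : ℝ) else 0| =
          (((X ∩ Y).filter (· ∈ S i)).card : ℝ) := by
        intro i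
        have e1 : (X ∩ Y).filter (· ∈ S i) = X.filter (· ∈ S i ∩ Y) := by
          ext z
          simp only [Finset.mem_filter, Finset.mem_inter]
          tauto
        rw [e1, Finset.card_filter]
        push_cast
        refine Finset.sum_congr rfl (fun j _ => ?_)
        split_ifs <;> simp
      simp only [e]
      set T : Finset (Fin m) := univ.filter
        (fun i => 2 * (D : ℝ) < (((X ∩ Y).filter (· ∈ S i)).card : ℝ)) with hT
      have h1 := count S w s t hs h hfree (X ∩ Y) T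
      have h2 : T.card * (2 * D + 1) ≤ ∑ i ∈ T, ((X ∩ Y).filter (· ∈ S i)).card := by
        rw [← smul_eq_mul, ← Finset.sum_const]
        refine Finset.sum_le_sum (fun i hi => ?_)
        have h3 := (Finset.mem_filter.1 hi).2
        have h4 : 2 * D < ((X ∩ Y).filter (· ∈ S i)).card := by exact_mod_cast h3
        omega
      have h3 : 0 < X.card := Finset.card_pos.2 hX
      have h4 := h2.trans h1
      rw [← hD] at h4
      by_contra hcon
      push Not at hcon
      have h7 : (X ∩ Y).card ≤ X.card := Finset.card_le_card Finset.inter_subset_left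
      have h5 : D * (X ∩ Y).card ≤ D * T.card := Nat.mul_le_mul_left _ (h7.trans hcon)
      have h6 : 0 < T.card := lt_of_lt_of_le h3 hcon
      nlinarith)
  refine ⟨fun i => if x i then 1 else -1, fun i => by dsimp only; split_ifs <;> simp, ?_⟩
  intro j
  have h1 := hx j
  have h2 : row (fun (i : Fin m) (j : Fin n) => if j ∈ S i ∩ Y then (1 : ℝ) else 0) x j =
      ((∑ i ∈ S j ∩ Y, (if x i then (1 : ℤ) else -1) : ℤ) : ℝ) := by
    unfold row
    push_cast
    rw [← Finset.sum_filter_add_sum_filter_not univ (fun i => i ∈ S j ∩ Y)]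
    have e1 : (univ.filter (fun i => i ∈ S j ∩ Y)) = S j ∩ Y := by ext i; simp
    rw [e1]
    have e2 : ∑ i ∈ univ.filter (fun i => i ∉ S j ∩ Y),
        (if i ∈ S j ∩ Y then (1 : ℝ) else 0) * sg (x i) = 0 := by
      refine Finset.sum_eq_zero (fun i hi => ?_)
      rw [if_neg (Finset.mem_filter.1 hi).2, zero_mul]
    rw [e2, add_zero]
    refine Finset.sum_congr rfl (fun i hi => ?_)
    rw [if_pos hi, one_mul]
    cases x i <;> simp [sg]
  rw [h2] at h1
  have h3 : |∑ i ∈ S j ∩ Y, (if x i then (1 : ℤ) else -1)| ≤ 2 * (D : ℤ) := by exact_mod_cast h1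
  rw [hD] at h3
  push_cast at h3
  exact h3

end Pool.Agent.Y422.TG.Disc
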