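import Pool.Agent.Y422.TZ.Copies

/-!
# The twin-width of graphs with triangular coordinates

A bipartite graph whose vertices have coordinates in `ZMod p` such that, for every edge and every
`j ≥ 1`, the difference of the `j`-th coordinates of the two ends is a function of the first `j`
coordinates of both ends, has twin-width at most `6 p`, and so have disjoint copies of it.
-/

set_option autoImplicit false

namespace Pool.Agent.Y422.TG

open Finset Pool.Agent.Y422.TW Pool.Agent.Y422.TZ

open Classical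

theorem parts_congr {V α β : Type} [Fintype V] (f : V → α) (g : V → β)
    (h : ∀ u v, f u = f v ↔ g u = g v) : parts f = parts g := by
  unfold parts
  congr 1
  funext x
  ext y
  rw [mem_cls, mem_cls]
  exact h y x

/-- triangular coordinates -/
structure Tri {W : Type} (H : SimpleGraph W) (p K : ℕ) (side : W → Bool) (q : W → ℕ → ZMod p) :
    Prop where
  inj : ∀ v w, side v = side w → (∀ j < K, q v j = q w j) → v = w
  bip : ∀ v w, H.Adj v w → side v ≠ side w
  tri : ∀ v w v' w', H.Adj v w → H.Adj v' w' → side v = side v' → ∀ j, 1 ≤ j → j < K →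
    (∀ i < j, q v i = q v' i ∧ q w i = q w' i) → q v j - q w j = q v' j - q w' j

theorem block' (j i' L : ℕ) (hL : 0 < L) (hi : i' ≤ 2 * L) :
    ∃ d : Fin 3, j / L = (j + i') / L - d := by
  have h1 : j / L ≤ (j + i') / L := Nat.div_le_div_right (by omega)
  have h2 : (j + i') / L ≤ j / L + 2 := by
    have : (j + i') / L ≤ (j + 2 * L) / L := Nat.div_le_div_right (by omega)
    rwa [Nat.add_mul_div_right _ _ hL] at this
  obtain ⟨x, hx⟩ : ∃ x, x = j / L := ⟨_, rfl⟩
  obtain ⟨y, hy⟩ : ∃ y, y = (j + i') / L := ⟨_, rfl⟩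
  rw [← hx, ← hy] at h1 h2
  rw [← hx, ← hy]
  exact ⟨⟨y - x, by omega⟩, by
    show x = y - (y - x)
    omega⟩

theorem val_sub' {p : ℕ} [NeZero p] (x y f : ZMod p) (h : y - x = f) :
    ∃ e : Fin 2, x.val + (e : ℕ) * p = y.val + (-f).val := by
  have hx : x = y + (-f) := by rw [← h]; ring
  by_cases hlt : y.val + (-f).val < p
  · refine ⟨0, ?_⟩
    have := ZMod.val_add_of_lt hlt
    rw [← hx] at this
    rw [this]
    simp
  · refine ⟨1, ?_⟩
    have := ZMod.val_add_of_le (not_lt.1 hlt)
    rw [← hx] at this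
    rw [this]
    have h1 : ((1 : Fin 2) : ℕ) = 1 := rfl
    rw [h1]
    omega

section

variable {W : Type} {p : ℕ} (M : ℕ) (side : W → Bool) (q : W → ℕ → ZMod p)

/-- the labelling by the first `i` coordinates and blocks of length `2 ^ r` for the next one -/
def lab (i r : ℕ) (v : Fin M × W) : Fin M × Bool × (Fin i → ZMod p) × ℕ :=
  (v.1, side v.2, fun j => q v.2 j, (q v.2 i).val / 2 ^ r)

theorem lab_iff (i r : ℕ) (u v : Fin M × W) : lab M side q i r u = lab M side q i r v ↔
    u.1 = v.1 ∧ side u.2 = side v.2 ∧ (∀ j < i, q u.2 j = q v.2 j) ∧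
      (q u.2 i).val / 2 ^ r = (q v.2 i).val / 2 ^ r := by
  unfold lab
  rw [Prod.mk.injEq, Prod.mk.injEq, Prod.mk.injEq]
  constructor
  · rintro ⟨h1, h2, h3, h4⟩
    exact ⟨h1, h2, fun j hj => congrFun h3 ⟨j, hj⟩, h4⟩
  · rintro ⟨h1, h2, h3, h4⟩
    exact ⟨h1, h2, funext fun j => h3 j j.2, h4⟩

variable [Fintype W] (H : SimpleGraph W) {K : ℕ} [NeZero p]

variable {side q}

theorem step (hT : Tri H p K side q) (i r : ℕ) (hi : 1 ≤ i) (hiK : i < K) :
    Relation.ReflTransGen (Contract (copies M H) (6 * p))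
      (parts (lab M side q i r)) (parts (lab M side q i (r + 1))) := by
  refine coarsen_touch _ _ _ _ ?_ ?_
  · intro u v h
    rw [lab_iff] at h ⊢
    refine ⟨h.1, h.2.1, h.2.2.1, ?_⟩
    rw [pow_succ, ← Nat.div_div_eq_div_mul, ← Nat.div_div_eq_div_mul, h.2.2.2]
  · intro c
    obtain ⟨ref, href⟩ : ∃ ref : ZMod p → W × W, ∀ z y x, side y = side c.2 →
        (∀ j < i, q y j = q c.2 j) → H.Adj y x → q x 0 = z →
        side (ref z).1 = side c.2 ∧ (∀ j < i, q (ref z).1 j = q c.2 j) ∧
          H.Adj (ref z).1 (ref z).2 ∧ q (ref z).2 0 = z := by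
      refine ⟨fun z => if h : ∃ yx : W × W, side yx.1 = side c.2 ∧ (∀ j < i, q yx.1 j = q c.2 j) ∧
          H.Adj yx.1 yx.2 ∧ q yx.2 0 = z then h.choose else (c.2, c.2), ?_⟩
      intro z y x h1 h2 h3 h4
      have h : ∃ yx : W × W, side yx.1 = side c.2 ∧ (∀ j < i, q yx.1 j = q c.2 j) ∧
          H.Adj yx.1 yx.2 ∧ q yx.2 0 = z := ⟨(y, x), h1, h2, h3, h4⟩
      simp only [dif_pos h]
      exact h.choose_spec
    refine ⟨(univ : Finset (ZMod p × Fin 2 × Fin 3)).image (fun t =>
      ((c.1, !side c.2, (fun j : Fin i => q (ref t.1).2 j),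
        (2 ^ (r + 1) * ((q c.2 i).val / 2 ^ (r + 1)) +
          (-(q (ref t.1).1 i - q (ref t.1).2 i)).val + 2 * 2 ^ r - (t.2.1 : ℕ) * p) / 2 ^ r
            - (t.2.2 : ℕ)) : Fin M × Bool × (Fin i → ZMod p) × ℕ)), ?_, ?_⟩
    · refine card_image_le.trans ?_
      rw [card_univ, Fintype.card_prod, Fintype.card_prod, Fintype.card_fin, Fintype.card_fin,
        ZMod.card]
      exact le_of_eq (by ring)
    · rintro y x hy hadj
      rw [lab_iff] at hy
      obtain ⟨hy1, hy2, hy3, hy4⟩ := hy
      obtain ⟨hc, hA⟩ := hadj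
      obtain ⟨r1, r2, r3, r4⟩ := href (q x.2 0) y.2 x.2 hy2 hy3 hA rfl
      have hside : side y.2 = side (ref (q x.2 0)).1 := hy2.trans r1.symm
      -- the first coordinates of `x`
      have hx : ∀ j < i, q x.2 j = q (ref (q x.2 0)).2 j := by
        intro j
        induction j using Nat.strong_induction_on with
        | _ j ih =>
          intro hj
          rcases Nat.eq_zero_or_pos j with rfl | hj0
          · exact r4.symm
          · have h := hT.tri _ _ _ _ hA r3 hside j hj0 (by omega) (fun i' hi' =>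
              ⟨(hy3 i' (by omega)).trans (r2 i' (by omega)).symm, ih i' hi' (by omega)⟩)
            have h2 : q y.2 j = q (ref (q x.2 0)).1 j := (hy3 j hj).trans (r2 j hj).symm
            rw [h2] at h
            exact sub_right_injective h
      have hxi : q y.2 i - q x.2 i = q (ref (q x.2 0)).1 i - q (ref (q x.2 0)).2 i :=
        hT.tri _ _ _ _ hA r3 hside i hi hiK (fun i' hi' =>
          ⟨(hy3 i' hi').trans (r2 i' hi').symm, hx i' hi'⟩)
      obtain ⟨e, he⟩ := val_sub' _ _ _ hxi
      obtain ⟨g, hg⟩ : ∃ g, g = (-(q (ref (q x.2 0)).1 i - q (ref (q x.2 0)).2 i)).val := ⟨_, rfl⟩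
      obtain ⟨a, ha⟩ : ∃ a, a = (q c.2 i).val / 2 ^ (r + 1) := ⟨_, rfl⟩
      obtain ⟨yv, hyv⟩ : ∃ n, n = (q y.2 i).val := ⟨_, rfl⟩
      obtain ⟨xv, hxv⟩ : ∃ n, n = (q x.2 i).val := ⟨_, rfl⟩
      rw [← ha, ← hyv] at hy4
      rw [← hg, ← hyv, ← hxv] at he
      have hdecomp : yv = 2 ^ (r + 1) * a + yv % 2 ^ (r + 1) := by
        rw [← hy4]
        exact (Nat.div_add_mod _ _).symm
      have hmod : yv % 2 ^ (r + 1) < 2 * 2 ^ r := by
        have hp : 2 ^ (r + 1) = 2 * 2 ^ r := by rw [pow_succ, mul_comm]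
        exact lt_of_lt_of_eq (Nat.mod_lt yv (show 0 < 2 ^ (r + 1) by positivity)) hp
      obtain ⟨ym, hym⟩ : ∃ n, n = yv % 2 ^ (r + 1) := ⟨_, rfl⟩
      rw [← hym] at hdecomp hmod
      obtain ⟨d, hd⟩ := block' xv (2 * 2 ^ r - ym) (2 ^ r) (by positivity) (Nat.sub_le _ _)
      refine mem_image.2 ⟨(q x.2 0, e, d), mem_univ _, ?_⟩
      unfold lab
      rw [Prod.mk.injEq, Prod.mk.injEq, Prod.mk.injEq]
      refine ⟨hy1.symm.trans hc, ?_, ?_, ?_⟩
      · have := hT.bip _ _ hA
        rw [hy2] at this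
        revert this
        cases side c.2 <;> cases side x.2 <;> simp
      · funext j
        exact (hx j j.2).symm
      · show (2 ^ (r + 1) * ((q c.2 i).val / 2 ^ (r + 1)) +
          (-(q (ref (q x.2 0)).1 i - q (ref (q x.2 0)).2 i)).val + 2 * 2 ^ r - (e : ℕ) * p) / 2 ^ r
            - (d : ℕ) = (q x.2 i).val / 2 ^ r
        rw [← hg, ← ha, ← hxv, hd]
        have : 2 ^ (r + 1) * a + g + 2 * 2 ^ r - (e : ℕ) * p = xv + (2 * 2 ^ r - ym) := by
          omega
        rw [this]

/-- disjoint copies of a graph with triangular coordinates have twin-width at most `6 p` -/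
theorem twinWidth_tri [Nonempty W] (hT : Tri H p K side q) (hK : 2 ≤ K) (hM : 1 ≤ M) :
    TwinWidthLE (copies M H) (6 * p) := by
  have hne : Nonempty (Fin M × W) := ⟨(⟨0, hM⟩, Classical.arbitrary W)⟩
  have hval : ∀ z : ZMod p, z.val / 2 ^ p = 0 := fun z =>
    Nat.div_eq_of_lt ((ZMod.val_lt z).trans Nat.lt_two_pow_self)
  have h1 : ∀ i r : ℕ, 1 ≤ i → i < K → Relation.ReflTransGen (Contract (copies M H) (6 * p))
      (parts (lab M side q i 0)) (parts (lab M side q i r)) := by
    intro i r hi hiK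
    induction r with
    | zero => exact Relation.ReflTransGen.refl
    | succ r ih => exact ih.trans (step M H hT i r hi hiK)
  have h2 : ∀ i : ℕ, i + 1 < K → Relation.ReflTransGen (Contract (copies M H) (6 * p))
      (parts (lab M side q (i + 1) 0)) (parts (fun v : Fin M × W => v.1)) := by
    intro i
    induction i with
    | zero =>
      intro hK1
      refine (h1 1 p le_rfl hK1).trans ?_
      refine coarsen_touch _ _ _ _ ?_ ?_
      · intro u v h
        rw [lab_iff] at h
        exact h.1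
      · intro c
        refine ⟨(univ : Finset (Bool × ZMod p)).image (fun s =>
          ((c.1, s.1, (fun _ => s.2), 0) : Fin M × Bool × (Fin 1 → ZMod p) × ℕ)), ?_, ?_⟩
        · refine card_image_le.trans ?_
          rw [card_univ, Fintype.card_prod, ZMod.card, Fintype.card_bool]
          omega
        · rintro y v hy hadj
          refine mem_image.2 ⟨(side v.2, q v.2 0), mem_univ _, ?_⟩
          unfold lab
          rw [Prod.mk.injEq, Prod.mk.injEq, Prod.mk.injEq]
          refine ⟨?_, rfl, ?_, (hval _).symm⟩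
          · exact (show y.1 = c.1 from hy).symm.trans hadj.1
          · funext j
            have : (j : ℕ) = 0 := by omega
            show q v.2 0 = q v.2 j
            rw [this]
    | succ i ih =>
      intro hK1
      refine (h1 (i + 1 + 1) p (by omega) hK1).trans ?_
      have : parts (lab M side q (i + 1 + 1) p) = parts (lab M side q (i + 1) 0) := by
        apply parts_congr
        intro u v
        rw [lab_iff, lab_iff, hval, hval, pow_zero, Nat.div_one, Nat.div_one]
        constructor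
        · rintro ⟨a1, a2, a3, -⟩
          exact ⟨a1, a2, fun j hj => a3 j (by omega), by rw [a3 (i + 1) (by omega)]⟩
        · rintro ⟨a1, a2, a3, a4⟩
          refine ⟨a1, a2, ?_, rfl⟩
          intro j hj
          rcases Nat.lt_succ_iff_lt_or_eq.1 hj with h | h
          · exact a3 j h
          · rw [h]
            exact ZMod.val_injective p a4
      rw [this]
      exact ih (by omega)
  have h3 : Relation.ReflTransGen (Contract (copies M H) (6 * p))
      (parts (fun v : Fin M × W => v.1)) (parts (fun _ : Fin M × W => ())) :=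
    coarsen_free _ _ _ _ (fun _ _ _ => rfl) (fun u v h => h.1)
  obtain ⟨k, rfl⟩ : ∃ k, K = k + 2 := ⟨K - 2, by omega⟩
  refine twinWidthLE_of _ _ (lab M side q (k + 1) 0) ?_ ((h2 k (by omega)).trans h3)
  intro u v h
  rw [lab_iff, pow_zero, Nat.div_one, Nat.div_one] at h
  obtain ⟨a1, a2, a3, a4⟩ := h
  refine Prod.ext a1 (hT.inj _ _ a2 ?_)
  intro j hj
  rcases Nat.lt_succ_iff_lt_or_eq.1 (show j < k + 1 + 1 by omega) with h | h
  · exact a3 j h
  · rw [h]
    exact ZMod.val_injective p a4

end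

end Pool.Agent.Y422.TG
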