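import Pool.Agent.Y422.TG.Tup
import Pool.Agent.Y422.TG.Tri
import Pool.Agent.TH815.GR6

/-!
# A graph of large girth with triangular coordinates
-/

set_option autoImplicit false

namespace Pool.Agent.Y422.TG

open Polynomial Finset Pool.Agent.Y422.TZ

/-- no closed sequences without backtracking of length at most `N` -/
def NoShort {V : Type} (G : SimpleGraph V) (N : ℕ) : Prop :=
  ∀ (n : ℕ) (f : ℕ → V), 1 ≤ n → n ≤ N → (∀ i, f (i + n) = f i) →
    (∀ i, G.Adj (f i) (f (i + 1))) → (∀ i, f (i + 2) ≠ f i) → False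

theorem egirth_of_noShort {V : Type} (G : SimpleGraph V) (N : ℕ) (h : NoShort G N) :
    (N : ℕ∞) < G.egirth := by
  rw [Pool.TH815.GR.egirth_iff]
  intro v p hp
  by_contra hcon
  push Not at hcon
  have h3 := hp.three_le_length
  have hinj := hp.getVert_injOn'
  obtain ⟨n, hn⟩ : ∃ n, n = p.length := ⟨_, rfl⟩
  rw [← hn] at hcon h3 hinj
  refine h n (fun i => p.getVert (i % n)) (by omega) hcon ?_ ?_ ?_
  · intro i
    simp only [Nat.add_mod_right]
  · intro i
    show G.Adj (p.getVert (i % n)) (p.getVert ((i + 1) % n))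
    have hlt : i % n < n := Nat.mod_lt _ (by omega)
    have hadj : G.Adj (p.getVert (i % n)) (p.getVert (i % n + 1)) :=
      p.adj_getVert_succ (by rw [← hn]; exact hlt)
    rw [← Nat.mod_add_mod]
    by_cases hc : i % n + 1 = n
    · rw [hc, Nat.mod_self, p.getVert_zero]
      have e : p.getVert n = v := by rw [hn]; exact p.getVert_length
      rw [hc, e] at hadj
      exact hadj
    · rw [Nat.mod_eq_of_lt (a := i % n + 1) (by omega)]
      exact hadj
  · intro i heq
    have hlt : i % n < n := Nat.mod_lt _ (by omega)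
    have hlt2 : (i + 2) % n < n := Nat.mod_lt _ (by omega)
    have h4 : (i + 2) % n = i % n := hinj
      (by show (i + 2) % n ≤ n - 1; omega) (by show i % n ≤ n - 1; omega) heq
    rw [← Nat.mod_add_mod] at h4
    obtain ⟨r, hr⟩ : ∃ r, r = i % n := ⟨_, rfl⟩
    rw [← hr] at h4 hlt
    by_cases hc : r + 2 < n
    · rw [Nat.mod_eq_of_lt hc] at h4
      omega
    · rw [Nat.mod_eq_sub_mod (by omega), Nat.mod_eq_of_lt (by omega)] at h4
      omega

theorem noShort_copies {V : Type} (G : SimpleGraph V) (M N : ℕ) (h : NoShort G N) :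
    NoShort (copies M G) N := by
  intro n f hn hnN hper hA hB
  refine h n (fun i => (f i).2) hn hnN (fun i => by rw [hper]) (fun i => (hA i).2) ?_
  intro i heq
  exact hB i (Prod.ext ((hA i).1.trans (hA (i + 1)).1).symm heq)

section

variable {F : Type} [Field F]

/-- the coordinates on the side `s` -/
noncomputable def cc (s : Bool) (g : Tup F) (j : ℕ) : F := if s = true then g.yc j else g.xc j

/-- the vertices: realised coordinates -/
def Vtx (F : Type) [Field F] (K : ℕ) : Type :=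
  {z : Bool × (Fin K → F) // ∃ g : Tup F, Reach g ∧ ∀ j : Fin K, cc z.1 g j = z.2 j}

noncomputable instance instFintypeVtx [Fintype F] (K : ℕ) : Fintype (Vtx F K) := by
  classical
  unfold Vtx
  infer_instance

instance (K : ℕ) : Nonempty (Vtx F K) := ⟨⟨(true, _), _, Reach.one, fun _ => rfl⟩⟩

/-- the side of a vertex -/
def Vtx.side {K : ℕ} (v : Vtx F K) : Bool := v.1.1

/-- `g` lies over the vertex `v` -/
def Over {K : ℕ} (g : Tup F) (v : Vtx F K) : Prop := ∀ j : Fin K, cc v.side g j = v.1.2 j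

theorem over_ext {K : ℕ} {g : Tup F} {v w : Vtx F K} (h1 : Over g v) (h2 : Over g w)
    (h : v.side = w.side) : v = w := by
  apply Subtype.ext
  refine Prod.ext h (funext fun j => ?_)
  rw [← h1 j, ← h2 j, h]

theorem over_agree {K : ℕ} {g g' : Tup F} {v : Vtx F K} (h : Over g v) (H : Agree K g g') :
    Over g' v := by
  intro j
  rw [← h j]
  unfold cc
  split_ifs
  · exact (H j j.2).2.symm
  · exact (H j j.2).1.symm

theorem over_eq {K : ℕ} {g g' : Tup F} {v : Vtx F K} (h : Over g v) (h' : Over g' v) (j : ℕ)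
    (hj : j < K) : cc v.side g j = cc v.side g' j :=
  (h ⟨j, hj⟩).trans (h' ⟨j, hj⟩).symm

theorem over_eq_false {K : ℕ} {g g' : Tup F} {v : Vtx F K} (h : Over g v) (h' : Over g' v)
    (hv : v.side = false) (j : ℕ) (hj : j < K) : g.xc j = g'.xc j := by
  have := over_eq h h' j hj
  simpa [cc, hv] using this

theorem over_eq_true {K : ℕ} {g g' : Tup F} {v : Vtx F K} (h : Over g v) (h' : Over g' v)
    (hv : v.side = true) (j : ℕ) (hj : j < K) : g.yc j = g'.yc j := by
  have := over_eq h h' j hj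
  simpa [cc, hv] using this

/-- the vertex under `g` -/
noncomputable def mk' (K : ℕ) (s : Bool) (g : Tup F) (h : Reach g) : Vtx F K :=
  ⟨(s, fun j => cc s g j), g, h, fun _ => rfl⟩

theorem over_mk' (K : ℕ) (s : Bool) (g : Tup F) (h : Reach g) : Over g (mk' K s g h) :=
  fun _ => rfl

/-- the graph -/
def Gr (F : Type) [Field F] (K : ℕ) : SimpleGraph (Vtx F K) where
  Adj v w := v.side ≠ w.side ∧ ∃ g : Tup F, Reach g ∧ Over g v ∧ Over g w
  symm := ⟨fun _ _ h => ⟨h.1.symm, h.2.choose, h.2.choose_spec.1, h.2.choose_spec.2.2,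
    h.2.choose_spec.2.1⟩⟩
  loopless := ⟨fun _ h => h.1 rfl⟩

theorem over_u {K : ℕ} {g : Tup F} {v : Vtx F K} (hg : Reach g) (h : Over g v)
    (hv : v.side = false) (α : F) : Over (g.u α) v := by
  intro j
  rw [← h j, hv]
  simp only [cc, Bool.false_eq_true, if_false]
  exact hg.xc_u α j

theorem over_v {K : ℕ} {g : Tup F} {v : Vtx F K} (hg : Reach g) (h : Over g v)
    (hv : v.side = true) (β : F) : Over (g.v β) v := by
  intro j
  rw [← h j, hv]
  simp only [cc, if_true]
  exact hg.yc_v β j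

theorem move_u {K : ℕ} {g : Tup F} {v w w' : Vtx F K} (hg : Reach g) (h1 : Over g v)
    (h2 : Over g w) (hv : v.side = true) (hw : w.side = false) (hA : (Gr F K).Adj w w')
    (hne : w' ≠ v) : ∃ α : F, α ≠ 0 ∧ Over (g.u α) w ∧ Over (g.u α) w' := by
  obtain ⟨hs, h, hh, o1, o2⟩ := hA
  have hag : Agree K (g.u (h.yc 0 - g.yc 0)) h := by
    apply agree_of_x (Reach.u g _ hg) hh
    · intro j hj
      rw [hg.xc_u]
      exact over_eq_false h2 o1 hw j hj
    · rw [hg.yc_u]
      ring
  have hag' : Agree K h (g.u (h.yc 0 - g.yc 0)) := fun i hi => ⟨(hag i hi).1.symm, (hag i hi).2.symm⟩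
  refine ⟨h.yc 0 - g.yc 0, ?_, over_u hg h2 hw _, over_agree o2 hag'⟩
  intro h0
  have := over_agree o2 hag'
  rw [h0, Tup.u_zero] at this
  apply hne
  refine over_ext this h1 ?_
  rw [hv]
  rw [hw] at hs
  revert hs
  cases w'.side <;> simp

theorem move_v {K : ℕ} {g : Tup F} {v w w' : Vtx F K} (hg : Reach g) (h1 : Over g v)
    (h2 : Over g w) (hv : v.side = false) (hw : w.side = true) (hA : (Gr F K).Adj w w')
    (hne : w' ≠ v) : ∃ β : F, β ≠ 0 ∧ Over (g.v β) w ∧ Over (g.v β) w' := by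
  obtain ⟨hs, h, hh, o1, o2⟩ := hA
  have hag : Agree K (g.v (h.xc 0 - g.xc 0)) h := by
    apply agree_of_y (Reach.v g _ hg) hh
    · intro j hj
      rw [hg.yc_v]
      exact over_eq_true h2 o1 hw j hj
    · rw [hg.xc_v]
      ring
  have hag' : Agree K h (g.v (h.xc 0 - g.xc 0)) := fun i hi => ⟨(hag i hi).1.symm, (hag i hi).2.symm⟩
  refine ⟨h.xc 0 - g.xc 0, ?_, over_v hg h2 hw _, over_agree o2 hag'⟩
  intro h0
  have := over_agree o2 hag'
  rw [h0, Tup.v_zero] at this
  apply hne
  refine over_ext this h1 ?_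
  rw [hv]
  rw [hw] at hs
  revert hs
  cases w'.side <;> simp

/-- the state after `k` steps -/
structure St {K : ℕ} (g0 : Tup F) (k : ℕ) (g : Tup F) (w w' : Vtx F K) : Prop where
  reach : Reach g
  o1 : Over g w
  o2 : Over g w'
  ne : w.side ≠ w'.side
  lev : Lev k (row g0 g)
  top : Top k (row g0 g)
  par : w'.side = decide (k % 2 = 1)

theorem bool_ne {a b : Bool} (h : a ≠ b) : b = !a := by
  revert h
  cases a <;> cases b <;> simp

theorem St.step {K : ℕ} {g0 : Tup F} {k : ℕ} {g : Tup F} {w w' w'' : Vtx F K}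
    (h : St g0 k g w w') (hA : (Gr F K).Adj w' w'') (hne : w'' ≠ w) :
    ∃ g', St g0 (k + 1) g' w' w'' := by
  have hs'' : w''.side = !w'.side := bool_ne hA.1
  have hs : w.side = !w'.side := bool_ne h.ne.symm
  by_cases hk : k % 2 = 0
  · have hk1 : ¬ (k % 2 = 1) := by omega
    have hk2 : (k + 1) % 2 = 1 := by omega
    have hw' : w'.side = false := by rw [h.par]; simp [hk1]
    rw [hw'] at hs hs''
    obtain ⟨α, hα, a1, a2⟩ := move_u h.reach h.o1 h.o2 hs hw' hA hne
    have hst := step_u hk h.lev h.top hα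
    refine ⟨g.u α, Reach.u _ _ h.reach, a1, a2, hA.1, ?_, ?_, ?_⟩
    · rw [row_u]; exact hst.1
    · rw [row_u]; exact hst.2
    · rw [hs'']; simp [hk2]
  · have hk1 : k % 2 = 1 := by omega
    have hk2 : ¬ ((k + 1) % 2 = 1) := by omega
    have hw' : w'.side = true := by rw [h.par]; simp [hk1]
    rw [hw'] at hs hs''
    obtain ⟨β, hβ, a1, a2⟩ := move_v h.reach h.o1 h.o2 hs hw' hA hne
    have hst := step_v hk1 h.lev h.top hβ
    refine ⟨g.v β, Reach.v _ _ h.reach, a1, a2, hA.1, ?_, ?_, ?_⟩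
    · rw [row_v]; exact hst.1
    · rw [row_v]; exact hst.2
    · rw [hs'']; simp [hk2]

theorem St.walk {K : ℕ} {g0 g : Tup F} (h : ℕ → Vtx F K) (h0 : St g0 0 g (h 0) (h 1)) :
    ∀ k : ℕ, (∀ i ≤ k, (Gr F K).Adj (h i) (h (i + 1))) → (∀ i < k, h (i + 2) ≠ h i) →
      ∃ g', St g0 k g' (h k) (h (k + 1)) := by
  intro k
  induction k with
  | zero => exact fun _ _ => ⟨g, h0⟩
  | succ k ih =>
    intro hA hB
    obtain ⟨g', hg'⟩ := ih (fun i hi => hA i (by omega)) (fun i hi => hB i (by omega))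
    exact hg'.step (hA (k + 1) le_rfl) (hB k (by omega))

theorem noShort_key {K m l : ℕ} (hK : K + 1 = 3 * m / 2) (hK0 : 0 < K) (hl : 1 ≤ l) (hlm : l ≤ m)
    (f : ℕ → Vtx F K) (hper : ∀ i, f (i + 2 * l) = f i) (hA : ∀ i, (Gr F K).Adj (f i) (f (i + 1)))
    (hB : ∀ i, f (i + 2) ≠ f i) (hf0 : (f 0).side = false) : False := by
  have hf1 : (f 1).side = true := by
    have := bool_ne (hA 0).1
    rw [hf0] at this
    exact this
  obtain ⟨hne, g0, hg0, o0, o1⟩ := hA 0
  have e1 : f (2 * l + 1) = f 1 := by rw [add_comm]; exact hper 1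
  have e0 : f (2 * l) = f 0 := by
    have := hper 0
    rwa [zero_add] at this
  -- backwards
  obtain ⟨g', hg'⟩ := St.walk (g0 := g0) (g := g0) (fun i => f (2 * l + 1 - i))
    (by
      show St g0 0 g0 (f (2 * l + 1)) (f (2 * l))
      rw [e1, e0]
      refine ⟨hg0, o1, o0, hne.symm, ?_, ?_, ?_⟩
      · rw [row_self hg0]; exact lev_one
      · rw [row_self hg0]; exact top_one
      · rw [hf0]; simp) l
    (by
      intro i hi
      show (Gr F K).Adj (f (2 * l + 1 - i)) (f (2 * l + 1 - (i + 1)))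
      have h := hA (2 * l - i)
      rw [show 2 * l + 1 - i = 2 * l - i + 1 by omega,
        show 2 * l + 1 - (i + 1) = 2 * l - i by omega]
      exact h.symm)
    (by
      intro i hi
      show f (2 * l + 1 - (i + 2)) ≠ f (2 * l + 1 - i)
      have h := hB (2 * l + 1 - (i + 2))
      rw [show 2 * l + 1 - (i + 2) + 2 = 2 * l + 1 - i by omega] at h
      exact h.symm)
  have hg'' : St g0 l g' (f (l + 1)) (f l) := by
    have h : St g0 l g' (f (2 * l + 1 - l)) (f (2 * l + 1 - (l + 1))) := hg'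
    rwa [show 2 * l + 1 - l = l + 1 by omega, show 2 * l + 1 - (l + 1) = l by omega] at h
  -- forwards
  obtain ⟨β, -, b1, b2⟩ := move_v hg0 o0 o1 hf0 hf1 (hA 1) (hB 0)
  have hrow : row g0 (g0.v β) = ((1, 0) : F[X] × F[X]) := by
    rw [row_v, row_self hg0]
    simp
  have hf2 : (f 2).side = false := by
    have := bool_ne (hA 1).1
    rw [hf1] at this
    exact this
  obtain ⟨h', hh'⟩ := St.walk (g0 := g0) (g := g0.v β) (fun i => f (i + 1))
    (by
      show St g0 0 (g0.v β) (f 1) (f 2)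
      refine ⟨Reach.v _ _ hg0, b1, b2, (hA 1).1, ?_, ?_, ?_⟩
      · rw [hrow]; exact lev_one
      · rw [hrow]; exact top_one
      · rw [hf2]; simp) (l - 1)
    (fun i _ => hA (i + 1))
    (fun i _ => hB (i + 1))
  have hh'' : St g0 (l - 1) h' (f l) (f (l + 1)) := by
    have h : St g0 (l - 1) h' (f (l - 1 + 1)) (f (l - 1 + 1 + 1)) := hh'
    rwa [show l - 1 + 1 = l by omega] at h
  have hag : Agree K g' h' := by
    intro j hj
    have hsides := bool_ne hg''.ne
    cases hc : (f (l + 1)).side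
    · rw [hc] at hsides
      exact ⟨over_eq_false hg''.o1 hh''.o2 hc j hj, over_eq_true hg''.o2 hh''.o1 hsides j hj⟩
    · rw [hc] at hsides
      exact ⟨over_eq_false hg''.o2 hh''.o1 hsides j hj, over_eq_true hg''.o1 hh''.o2 hc j hj⟩
  rcases Nat.mod_two_eq_zero_or_one l with hpar | hpar
  · refine hg''.top.1 hpar ?_
    rw [row_congr1 g0 hg''.reach hh''.reach hag (l / 2) (by omega)]
    exact hh''.lev.1 _ (by omega)
  · refine hg''.top.2 hpar ?_
    rw [row_congr2 g0 hg''.reach hh''.reach hag (l / 2) hK0 (by omega)]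
    exact hh''.lev.2 _ (by omega)

/-- **The girth of the graph.** -/
theorem noShort_Gr {K m : ℕ} (hK : K + 1 = 3 * m / 2) (hK0 : 0 < K) :
    NoShort (Gr F K) (2 * m) := by
  intro n f hn hnm hper hA hB
  have hs : ∀ i, (f (i + 1)).side = !(f i).side := fun i => bool_ne (hA i).1
  have hs2 : ∀ i, (f (2 * i)).side = (f 0).side := by
    intro i
    induction i with
    | zero => rfl
    | succ i ih => rw [show 2 * (i + 1) = 2 * i + 1 + 1 by ring, hs, hs, ih, Bool.not_not]
  have heven : n % 2 = 0 := by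
    by_contra hodd
    obtain ⟨l, rfl⟩ : ∃ l, n = 2 * l + 1 := ⟨n / 2, by omega⟩
    have h1 := hper 0
    rw [zero_add] at h1
    have h2 := hs (2 * l)
    rw [h1, hs2] at h2
    revert h2
    cases (f 0).side <;> simp
  obtain ⟨l, rfl⟩ : ∃ l, n = 2 * l := ⟨n / 2, by omega⟩
  cases h0 : (f 0).side
  · exact noShort_key hK hK0 (by omega) (by omega) f hper hA hB h0
  · refine noShort_key hK hK0 (l := l) (by omega) (by omega) (fun i => f (i + 1)) ?_
      (fun i => hA (i + 1)) (fun i => hB (i + 1)) ?_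
    · intro i
      show f (i + 2 * l + 1) = f (i + 1)
      rw [show i + 2 * l + 1 = i + 1 + 2 * l by ring]
      exact hper _
    · show (f (0 + 1)).side = false
      rw [hs, h0]
      rfl

end

section

variable {p : ℕ} [Fact p.Prime] {K : ℕ}

/-- the coordinates of a vertex -/
noncomputable def qq (v : Vtx (ZMod p) K) (j : ℕ) : ZMod p :=
  if h : j < K then v.1.2 ⟨j, h⟩ else 0

theorem qq_eq {v : Vtx (ZMod p) K} {g : Tup (ZMod p)} (h : Over g v) {j : ℕ} (hj : j < K) :
    qq v j = cc v.side g j := by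
  unfold qq
  rw [dif_pos hj]
  exact (h ⟨j, hj⟩).symm

theorem tri_Gr : Tri (Gr (ZMod p) K) p K Vtx.side qq := by
  refine ⟨?_, fun v w h => h.1, ?_⟩
  · intro v w hs h
    apply Subtype.ext
    refine Prod.ext hs (funext fun j => ?_)
    have := h j j.2
    unfold qq at this
    rwa [dif_pos j.2, dif_pos j.2] at this
  · rintro v w v' w' ⟨hne, g, hg, o1, o2⟩ ⟨hne', g', hg', o1', o2'⟩ hs j hj hjK H
    have hw := bool_ne hne
    have hw' := bool_ne hne'
    rw [qq_eq o1 hjK, qq_eq o2 hjK, qq_eq o1' hjK, qq_eq o2' hjK]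
    have H' : ∀ i < j, cc v.side g i = cc v'.side g' i ∧ cc w.side g i = cc w'.side g' i := by
      intro i hi
      have := H i hi
      rwa [qq_eq o1 (by omega), qq_eq o2 (by omega), qq_eq o1' (by omega),
        qq_eq o2' (by omega)] at this
    rw [hw, hw', ← hs] at H' ⊢
    cases hc : v.side
    · rw [hc] at H'
      simp only [cc, Bool.not_false, Bool.false_eq_true, if_true, if_false] at H' ⊢
      exact triangular hg hg' j hj H'
    · rw [hc] at H'
      simp only [cc, Bool.not_true, Bool.false_eq_true, if_true, if_false] at H' ⊢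
      have := triangular hg hg' j hj (fun i hi => ⟨(H' i hi).2, (H' i hi).1⟩)
      linear_combination -this

theorem deg_Gr (hK : 0 < K) (v : Vtx (ZMod p) K) :
    ∃ s : Finset (Vtx (ZMod p) K), p ≤ s.card ∧ ∀ w ∈ s, (Gr (ZMod p) K).Adj v w := by
  classical
  obtain ⟨g, hg, o⟩ := v.2
  have ov : Over g v := o
  cases hc : v.side
  · refine ⟨(univ : Finset (ZMod p)).image (fun α => mk' K true (g.u α) (Reach.u g α hg)), ?_, ?_⟩
    · rw [card_image_of_injective, card_univ, ZMod.card]
      intro α α' h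
      have h1 := congrArg (fun z : Vtx (ZMod p) K => z.1.2 ⟨0, hK⟩) h
      have h2 : (g.u α).yc 0 = (g.u α').yc 0 := h1
      rw [hg.yc_u, hg.yc_u] at h2
      exact add_left_cancel h2
    · intro w hw
      obtain ⟨α, -, rfl⟩ := mem_image.1 hw
      refine ⟨?_, g.u α, Reach.u g α hg, over_u hg ov hc α, over_mk' _ _ _ _⟩
      rw [hc]
      exact Bool.false_ne_true
  · refine ⟨(univ : Finset (ZMod p)).image (fun β => mk' K false (g.v β) (Reach.v g β hg)), ?_, ?_⟩
    · rw [card_image_of_injective, card_univ, ZMod.card]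
      intro α α' h
      have h1 := congrArg (fun z : Vtx (ZMod p) K => z.1.2 ⟨0, hK⟩) h
      have h2 : (g.v α).xc 0 = (g.v α').xc 0 := h1
      rw [hg.xc_v, hg.xc_v] at h2
      exact add_left_cancel h2
    · intro w hw
      obtain ⟨β, -, rfl⟩ := mem_image.1 hw
      refine ⟨?_, g.v β, Reach.v g β hg, over_v hg ov hc β, over_mk' _ _ _ _⟩
      rw [hc]
      exact Bool.false_ne_true.symm

theorem card_Vtx_le : Fintype.card (Vtx (ZMod p) K) ≤ 2 * p ^ K := by
  classical
  have h := Fintype.card_le_of_injective (fun v : Vtx (ZMod p) K => v.1)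
    (fun a b h => Subtype.ext h)
  refine h.trans ?_
  rw [Fintype.card_prod, Fintype.card_bool, Fintype.card_fun, ZMod.card, Fintype.card_fin]

end

end Pool.Agent.Y422.TG
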