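import Pool.Agent.Y422.TG.Tri

/-!
# The twin-width of cyclic lifts of complete bipartite graphs and of their subgraphs
-/

set_option autoImplicit false

namespace Pool.Agent.Y422.TG

open Finset Pool.Agent.Y422.TW Pool.Agent.Y422.TZ

open Classical

section

variable {D N : ℕ} [NeZero N]

/-- the labelling with blocks of length `2 ^ r` -/
def labL (r : ℕ) (v : Bool × (Fin D × ZMod N)) : Bool × Fin D × ℕ :=
  (v.1, v.2.1, v.2.2.val / 2 ^ r)

/-- `G` is a subgraph of the cyclic lift with the voltages `f` -/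
def SubLift (G : SimpleGraph (Bool × (Fin D × ZMod N))) (f : Fin D × Fin D → ZMod N) : Prop :=
  ∀ u v, G.Adj u v → (u.1 = false ∧ v.1 = true ∧ v.2.2 - u.2.2 = f (u.2.1, v.2.1)) ∨
    (u.1 = true ∧ v.1 = false ∧ u.2.2 - v.2.2 = f (v.2.1, u.2.1))

theorem stepL (G : SimpleGraph (Bool × (Fin D × ZMod N))) (f : Fin D × Fin D → ZMod N)
    (hG : SubLift G f) (r : ℕ) :
    Relation.ReflTransGen (Contract G (6 * D)) (parts (labL (D := D) (N := N) r))
      (parts (labL (D := D) (N := N) (r + 1))) := by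
  refine coarsen_touch _ _ _ _ ?_ ?_
  · intro u v h
    unfold labL at h ⊢
    rw [Prod.mk.injEq, Prod.mk.injEq] at h ⊢
    refine ⟨h.1, h.2.1, ?_⟩
    rw [pow_succ, ← Nat.div_div_eq_div_mul, ← Nat.div_div_eq_div_mul, h.2.2]
  · intro c
    obtain ⟨F, hF⟩ : ∃ F : Fin D → ZMod N, ∀ b, F b =
      if c.1 = false then -f (c.2.1, b) else f (b, c.2.1) := ⟨_, fun _ => rfl⟩
    refine ⟨(univ : Finset (Fin D × Fin 2 × Fin 3)).image (fun t =>
      ((!c.1, t.1, (2 ^ (r + 1) * (c.2.2.val / 2 ^ (r + 1)) + (-F t.1).val + 2 * 2 ^ r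
        - (t.2.1 : ℕ) * N) / 2 ^ r - (t.2.2 : ℕ)) : Bool × Fin D × ℕ)), ?_, ?_⟩
    · refine card_image_le.trans ?_
      rw [card_univ, Fintype.card_prod, Fintype.card_prod, Fintype.card_fin, Fintype.card_fin,
        Fintype.card_fin]
      exact le_of_eq (by ring)
    · rintro y x hy hadj
      unfold labL at hy
      rw [Prod.mk.injEq, Prod.mk.injEq] at hy
      obtain ⟨hy1, hy2, hy3⟩ := hy
      have hx1 : x.1 = !c.1 := by
        rcases hG y x hadj with ⟨h1, h2, -⟩ | ⟨h1, h2, -⟩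
        · rw [← hy1, h1, h2]; rfl
        · rw [← hy1, h1, h2]; rfl
      have hdiff : y.2.2 - x.2.2 = F x.2.1 := by
        rw [hF]
        rcases hG y x hadj with ⟨h1, h2, h3⟩ | ⟨h1, h2, h3⟩
        · have : c.1 = false := by rw [← hy1, h1]
          rw [if_pos this, ← hy2, ← h3]
          ring
        · have : ¬ (c.1 = false) := by rw [← hy1, h1]; decide
          rw [if_neg this, ← hy2, ← h3]
      obtain ⟨e, he⟩ := val_sub' _ _ _ hdiff
      obtain ⟨g, hg⟩ : ∃ g, g = (-F x.2.1).val := ⟨_, rfl⟩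
      obtain ⟨a, ha⟩ : ∃ a, a = c.2.2.val / 2 ^ (r + 1) := ⟨_, rfl⟩
      obtain ⟨yv, hyv⟩ : ∃ n, n = y.2.2.val := ⟨_, rfl⟩
      obtain ⟨xv, hxv⟩ : ∃ n, n = x.2.2.val := ⟨_, rfl⟩
      rw [← ha, ← hyv] at hy3
      rw [← hg, ← hyv, ← hxv] at he
      have hdecomp : yv = 2 ^ (r + 1) * a + yv % 2 ^ (r + 1) := by
        rw [← hy3]
        exact (Nat.div_add_mod _ _).symm
      have hmod : yv % 2 ^ (r + 1) < 2 * 2 ^ r := by
        have hp : 2 ^ (r + 1) = 2 * 2 ^ r := by rw [pow_succ, mul_comm]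
        exact lt_of_lt_of_eq (Nat.mod_lt yv (show 0 < 2 ^ (r + 1) by positivity)) hp
      obtain ⟨ym, hym⟩ : ∃ n, n = yv % 2 ^ (r + 1) := ⟨_, rfl⟩
      rw [← hym] at hdecomp hmod
      obtain ⟨d, hd⟩ := block' xv (2 * 2 ^ r - ym) (2 ^ r) (by positivity) (Nat.sub_le _ _)
      refine mem_image.2 ⟨(x.2.1, e, d), mem_univ _, ?_⟩
      unfold labL
      rw [Prod.mk.injEq, Prod.mk.injEq]
      refine ⟨hx1.symm, rfl, ?_⟩
      show (2 ^ (r + 1) * (c.2.2.val / 2 ^ (r + 1)) + (-F x.2.1).val + 2 * 2 ^ r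
        - (e : ℕ) * N) / 2 ^ r - (d : ℕ) = x.2.2.val / 2 ^ r
      rw [← hg, ← ha, ← hxv, hd]
      have : 2 ^ (r + 1) * a + g + 2 * 2 ^ r - (e : ℕ) * N = xv + (2 * 2 ^ r - ym) := by
        omega
      rw [this]

/-- all subgraphs of cyclic lifts of `K_{D,D}` have twin-width at most `6 D` -/
theorem twinWidth_subLift (hD : 1 ≤ D) (G : SimpleGraph (Bool × (Fin D × ZMod N)))
    (f : Fin D × Fin D → ZMod N) (hG : SubLift G f) : TwinWidthLE G (6 * D) := by
  have hne : Nonempty (Bool × (Fin D × ZMod N)) := ⟨(true, ⟨0, hD⟩, 0)⟩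
  have hval : ∀ z : ZMod N, z.val / 2 ^ N = 0 := fun z =>
    Nat.div_eq_of_lt ((ZMod.val_lt z).trans Nat.lt_two_pow_self)
  have h1 : ∀ r : ℕ, Relation.ReflTransGen (Contract G (6 * D))
      (parts (labL (D := D) (N := N) 0)) (parts (labL (D := D) (N := N) r)) := by
    intro r
    induction r with
    | zero => exact Relation.ReflTransGen.refl
    | succ r ih => exact ih.trans (stepL G f hG r)
  have h0 : Function.Injective (labL (D := D) (N := N) 0) := by
    rintro ⟨a, b, c⟩ ⟨a', b', c'⟩ h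
    unfold labL at h
    rw [Prod.mk.injEq, Prod.mk.injEq, pow_zero, Nat.div_one, Nat.div_one] at h
    exact Prod.ext h.1 (Prod.ext h.2.1 (ZMod.val_injective N h.2.2))
  have h2 : Relation.ReflTransGen (Contract G (6 * D))
      (parts (labL (D := D) (N := N) N)) (parts (fun _ : Bool × (Fin D × ZMod N) => ())) := by
    refine coarsen_touch _ _ _ _ (fun _ _ _ => rfl) ?_
    intro c
    refine ⟨(univ : Finset (Bool × Fin D)).image (fun t => ((t.1, t.2, 0) : Bool × Fin D × ℕ)),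
      ?_, ?_⟩
    · refine card_image_le.trans ?_
      rw [card_univ, Fintype.card_prod, Fintype.card_bool, Fintype.card_fin]
      omega
    · rintro y v - -
      refine mem_image.2 ⟨(v.1, v.2.1), mem_univ _, ?_⟩
      unfold labL
      rw [hval]
  exact twinWidthLE_of _ _ _ h0 ((h1 N).trans h2)

end

end Pool.Agent.Y422.TG
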