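import Pool.Agent.Y422.TG.Count
import Pool.Agent.Y422.TG.Lift
import Pool.Agent.Y422.TZ.Main

/-!
# Random cyclic lifts without `K_{r,r}`
-/

set_option autoImplicit false

namespace Pool.Agent.Y422.TG

open Finset Pool.Agent.Y422.TW Pool.Agent.Y422.TZ Pool.Agent.W834.NG

section

variable {D N : ℕ}

/-- the lift without the edges in `R` -/
def liftGraph (f : Fin D × Fin D → ZMod N) (R : Finset (Fin D × Fin D × ZMod N)) :
    SimpleGraph (Bool × (Fin D × ZMod N)) where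
  Adj u v := (u.1 = false ∧ v.1 = true ∧ v.2.2 - u.2.2 = f (u.2.1, v.2.1) ∧
      (u.2.1, v.2.1, u.2.2) ∉ R) ∨
    (v.1 = false ∧ u.1 = true ∧ u.2.2 - v.2.2 = f (v.2.1, u.2.1) ∧
      (v.2.1, u.2.1, v.2.2) ∉ R)
  symm := ⟨fun _ _ h => h.symm⟩
  loopless := ⟨fun u h => by
    rcases h with ⟨h1, h2, -⟩ | ⟨h1, h2, -⟩
    · rw [h1] at h2; exact Bool.false_ne_true h2
    · rw [h1] at h2; exact Bool.false_ne_true h2⟩

theorem liftGraph_sub (f : Fin D × Fin D → ZMod N) (R : Finset (Fin D × Fin D × ZMod N)) :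
    SubLift (liftGraph f R) f := by
  intro u v h
  rcases h with ⟨h1, h2, h3, -⟩ | ⟨h1, h2, h3, -⟩
  · exact Or.inl ⟨h1, h2, h3⟩
  · exact Or.inr ⟨h2, h1, h3⟩

/-- `R` meets all copies of `K_{r,r}` -/
def Meets (r : ℕ) (hr : 0 < r) (f : Fin D × Fin D → ZMod N)
    (R : Finset (Fin D × Fin D × ZMod N)) : Prop :=
  ∀ x y : Fin r → Fin D × ZMod N, (∀ k k', (x k).1 = (x k').1 → k = k') →
    (∀ k k', (y k).1 = (y k').1 → k = k') →
    (∀ k l, (y l).2 - (x k).2 = f ((x k).1, (y l).1)) →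
    ((x ⟨0, hr⟩).1, (y ⟨0, hr⟩).1, (x ⟨0, hr⟩).2) ∈ R

theorem liftGraph_noK_aux {r : ℕ} (hr : 0 < r) (f : Fin D × Fin D → ZMod N)
    (R : Finset (Fin D × Fin D × ZMod N)) (hR : Meets r hr f R)
    (X Y : Fin r → Bool × (Fin D × ZMod N)) (hX : Function.Injective X)
    (hY : Function.Injective Y) (h0 : ∀ k, (X k).1 = false) (h1 : ∀ l, (Y l).1 = true)
    (hA : ∀ k l, (liftGraph f R).Adj (X k) (Y l)) : False := by
  have hA' : ∀ k l, (Y l).2.2 - (X k).2.2 = f ((X k).2.1, (Y l).2.1) ∧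
      ((X k).2.1, (Y l).2.1, (X k).2.2) ∉ R := by
    intro k l
    rcases hA k l with ⟨-, -, h3, h4⟩ | ⟨h1', -, -, -⟩
    · exact ⟨h3, h4⟩
    · rw [h1] at h1'
      exact absurd h1'.symm Bool.false_ne_true
  have hx : ∀ k k', (X k).2.1 = (X k').2.1 → k = k' := by
    intro k k' h
    apply hX
    have a1 := (hA' k ⟨0, hr⟩).1
    have a2 := (hA' k' ⟨0, hr⟩).1
    rw [← h] at a2
    have a3 : (X k).2.2 = (X k').2.2 := sub_right_injective (a1.trans a2.symm)
    exact Prod.ext ((h0 k).trans (h0 k').symm) (Prod.ext h a3)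
  have hy : ∀ k k', (Y k).2.1 = (Y k').2.1 → k = k' := by
    intro k k' h
    apply hY
    have a1 := (hA' ⟨0, hr⟩ k).1
    have a2 := (hA' ⟨0, hr⟩ k').1
    rw [← h] at a2
    have a3 : (Y k).2.2 = (Y k').2.2 := sub_left_injective (a1.trans a2.symm)
    exact Prod.ext ((h1 k).trans (h1 k').symm) (Prod.ext h a3)
  exact (hA' ⟨0, hr⟩ ⟨0, hr⟩).2
    (hR (fun k => (X k).2) (fun l => (Y l).2) hx hy (fun k l => (hA' k l).1))

theorem liftGraph_noK {r : ℕ} (hr : 0 < r) (f : Fin D × Fin D → ZMod N)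
    (R : Finset (Fin D × Fin D × ZMod N)) (hR : Meets r hr f R) :
    NoK (liftGraph f R) r r := by
  rintro ⟨x, y, hx, hy, hadj⟩
  have hs : ∀ k l, (y l).1 = !(x k).1 := by
    intro k l
    rcases hadj k l with ⟨h1, h2, -⟩ | ⟨h1, h2, -⟩
    · rw [h1, h2]; rfl
    · rw [h1, h2]; rfl
  have hs' : ∀ k l, (x k).1 = !(y l).1 := by
    intro k l
    rw [hs k l, Bool.not_not]
  cases h0 : (x ⟨0, hr⟩).1
  · have hy1 : ∀ l, (y l).1 = true := fun l => by rw [hs ⟨0, hr⟩ l, h0]; rfl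
    have hx0 : ∀ k, (x k).1 = false := fun k => by rw [hs' k ⟨0, hr⟩, hy1]; rfl
    exact liftGraph_noK_aux hr f R hR x y hx hy hx0 hy1 hadj
  · have hy1 : ∀ l, (y l).1 = false := fun l => by rw [hs ⟨0, hr⟩ l, h0]; rfl
    have hx0 : ∀ k, (x k).1 = true := fun k => by rw [hs' k ⟨0, hr⟩, hy1]; rfl
    exact liftGraph_noK_aux hr f R hR y x hy hx hy1 hx0 (fun k l => (hadj l k).symm)

theorem liftGraph_edges [NeZero N] (f : Fin D × Fin D → ZMod N)
    (R : Finset (Fin D × Fin D × ZMod N)) :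
    D * D * N ≤ Nat.card (liftGraph f R).edgeSet + R.card := by
  classical
  have h0 : Nat.card (liftGraph f R).edgeSet = (liftGraph f R).edgeFinset.card := by
    rw [Nat.card_eq_fintype_card, SimpleGraph.edgeFinset_card]
  have h : (Rᶜ).card ≤ (liftGraph f R).edgeFinset.card := by
    refine card_le_card_of_injOn
      (fun e => s((false, e.1, e.2.2), (true, e.2.1, e.2.2 + f (e.1, e.2.1)))) ?_ ?_
    · intro e he
      have he' : e ∉ R := mem_compl.1 (mem_coe.1 he)
      refine mem_coe.2 (SimpleGraph.mem_edgeFinset.2 ?_)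
      show (liftGraph f R).Adj _ _
      refine Or.inl ⟨rfl, rfl, ?_, he'⟩
      show e.2.2 + f (e.1, e.2.1) - e.2.2 = f (e.1, e.2.1)
      ring
    · intro e _ e' _ h
      rcases Sym2.eq_iff.1 h with ⟨h1, h2⟩ | ⟨h1, h2⟩
      · have a1 := (Prod.mk.inj h1).2
        have a2 := (Prod.mk.inj h2).2
        exact Prod.ext (Prod.mk.inj a1).1 (Prod.ext (Prod.mk.inj a2).1 (Prod.mk.inj a1).2)
      · exact absurd (Prod.mk.inj h1).1 Bool.false_ne_true
  rw [card_compl, Fintype.card_prod, Fintype.card_prod, Fintype.card_fin, ZMod.card] at h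
  have e : D * (D * N) = D * D * N := by ring
  rw [h0]
  omega

end

/-- a graph without `K_{r,r}` of twin-width at most `6 D` -/
theorem krr_graph (r D N : ℕ) (hr : 2 ≤ r) (hD : 1 ≤ D) (hN : 1 ≤ N)
    (h : 2 * D ^ 2 ≤ N ^ (r - 1)) :
    ∃ (V : Type) (_ : Fintype V) (G : SimpleGraph V), Fintype.card V = 2 * (D * N) ∧
      TwinWidthLE G (6 * D) ∧ NoK G r r ∧ D * D * N ≤ 2 * Nat.card G.edgeSet := by
  have : NeZero N := ⟨by omega⟩
  have hr0 : 0 < r := by omega
  obtain ⟨f, R, hR, hcop⟩ := exists_voltage D N r hr0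
  have h2R : 2 * R.card ≤ D * D * N := by
    obtain ⟨q, rfl⟩ : ∃ q, r = q + 1 := ⟨r - 1, by omega⟩
    rw [Nat.add_sub_cancel] at h
    have hq : q ≠ 0 := by omega
    have h1 : 2 * (D ^ 2) ^ q ≤ N ^ (q * q) := by
      calc 2 * (D ^ 2) ^ q ≤ 2 ^ q * (D ^ 2) ^ q :=
            Nat.mul_le_mul_right _ (Nat.le_self_pow hq 2)
        _ = (2 * D ^ 2) ^ q := (mul_pow _ _ _).symm
        _ ≤ (N ^ q) ^ q := Nat.pow_le_pow_left h q
        _ = N ^ (q * q) := (pow_mul _ _ _).symm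
    have h2 : 2 * R.card * N ^ ((q + 1) * (q + 1)) ≤ D * D * N * N ^ ((q + 1) * (q + 1)) := by
      calc 2 * R.card * N ^ ((q + 1) * (q + 1)) = 2 * (R.card * N ^ ((q + 1) * (q + 1))) := by ring
        _ ≤ 2 * ((D * N) ^ (q + 1) * (D * N) ^ (q + 1)) := Nat.mul_le_mul_left _ hR
        _ = (2 * (D ^ 2) ^ q) * (D * D * N * N ^ (2 * q + 1)) := by ring
        _ ≤ N ^ (q * q) * (D * D * N * N ^ (2 * q + 1)) := Nat.mul_le_mul_right _ h1
        _ = D * D * N * N ^ ((q + 1) * (q + 1)) := by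
            rw [show (q + 1) * (q + 1) = q * q + (2 * q + 1) by ring, pow_add]
            ring
    exact Nat.le_of_mul_le_mul_right h2 (by positivity)
  refine ⟨Bool × (Fin D × ZMod N), inferInstance, liftGraph f R, ?_, ?_, ?_, ?_⟩
  · rw [Fintype.card_prod, Fintype.card_prod, Fintype.card_bool, Fintype.card_fin, ZMod.card]
  · exact twinWidth_subLift hD _ f (liftGraph_sub f R)
  · exact liftGraph_noK hr0 f R hcop
  · have := liftGraph_edges f R
    omega

theorem noK_mono2 {V : Type} {G : SimpleGraph V} {r : ℕ} (hr : 2 ≤ r) (h : NoK G 2 2) :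
    NoK G r r := by
  rintro ⟨x, y, hx, hy, hadj⟩
  exact h ⟨fun i => x (Fin.castLE hr i), fun i => y (Fin.castLE hr i),
    fun a b hab => Fin.castLE_injective _ (hx hab),
    fun a b hab => Fin.castLE_injective _ (hy hab), fun i j => hadj _ _⟩

/-- the lower bound -/
theorem lower_krr (r : ℕ) (hr : 2 ≤ r) (n w : ℕ) (hn : 2 ≤ n) :
    ∃ (V : Type) (_ : Fintype V) (G : SimpleGraph V), Fintype.card V ≤ n ∧
      TwinWidthLE G w ∧ NoK G r r ∧
      1 / 96 * ((n : ℝ) * min ((w : ℝ) + 1) ((n : ℝ) ^ (1 - 2 / ((r : ℝ) + 1)))) ≤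
        Nat.card G.edgeSet := by
  classical
  have hn1 : (1 : ℝ) ≤ n := by exact_mod_cast (by omega : 1 ≤ n)
  have hn0 : (0 : ℝ) < n := by linarith
  have hr0 : (0 : ℝ) < r := by exact_mod_cast (by omega : 0 < r)
  have hr1 : (r : ℝ) + 1 ≠ 0 := by linarith
  set P : ℕ → Prop := fun s => 6 * s ≤ w ∧ 2 * s ^ 2 ≤ (n / (2 * s)) ^ (r - 1) with hP
  -- `P` implies that the quotient is positive
  have hpos : ∀ s, 1 ≤ s → P s → 1 ≤ n / (2 * s) := by
    intro s hs hPs
    by_contra hcon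
    have h0 : n / (2 * s) = 0 := Nat.lt_one_iff.1 (not_le.1 hcon)
    have h1 := hPs.2
    rw [h0, zero_pow (by omega)] at h1
    have h2 : 0 < s ^ 2 := by positivity
    omega
  have hquot : ∀ s, 1 ≤ s → n < 2 * s * (n / (2 * s) + 1) := by
    intro s hs
    exact Nat.lt_mul_div_succ n (by omega)
  have hmin : ∀ s, 1 ≤ s → ¬ P s →
      min ((w : ℝ) + 1) ((n : ℝ) ^ (1 - 2 / ((r : ℝ) + 1))) ≤ 6 * s := by
    intro s hs hPs
    have hs0 : (0 : ℝ) < s := by exact_mod_cast hs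
    by_cases h1 : 6 * s ≤ w
    · have h2 : (n / (2 * s)) ^ (r - 1) < 2 * s ^ 2 := by
        by_contra hcon
        exact hPs ⟨h1, not_lt.1 hcon⟩
      refine (min_le_right _ _).trans ?_
      -- `n ^ (r - 1) ≤ (4 s) ^ (r + 1)`
      have h3 : n ^ (r - 1) ≤ (4 * s) ^ (r + 1) := by
        have hq := hquot s hs
        obtain ⟨k, hk⟩ : ∃ k, k = n / (2 * s) := ⟨_, rfl⟩
        rw [← hk] at hq h2
        rcases Nat.eq_zero_or_pos k with hk0 | hk0
        · rw [hk0] at hq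
          calc n ^ (r - 1) ≤ (4 * s) ^ (r - 1) := Nat.pow_le_pow_left (by omega) _
            _ ≤ (4 * s) ^ (r + 1) := Nat.pow_le_pow_right (by omega) (by omega)
        · have hn4 : n ≤ 4 * s * k := by
            have : 2 * s * (k + 1) ≤ 2 * s * (2 * k) := Nat.mul_le_mul_left _ (by omega)
            have e : 2 * s * (2 * k) = 4 * s * k := by ring
            omega
          calc n ^ (r - 1) ≤ (4 * s * k) ^ (r - 1) := Nat.pow_le_pow_left hn4 _
            _ = (4 * s) ^ (r - 1) * k ^ (r - 1) := mul_pow _ _ _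
            _ ≤ (4 * s) ^ (r - 1) * (4 * s) ^ 2 := by
                apply Nat.mul_le_mul_left
                have e : (4 * s) ^ 2 = 16 * s ^ 2 := by ring
                omega
            _ = (4 * s) ^ (r + 1) := by
                rw [← pow_add]
                congr 1
                omega
      have h4 : ((n : ℝ) ^ (r - 1)) ≤ ((4 * s : ℕ) : ℝ) ^ (r + 1) := by exact_mod_cast h3
      have h5 : ((n : ℝ) ^ (r - 1)) ^ (1 / ((r : ℝ) + 1)) ≤
          (((4 * s : ℕ) : ℝ) ^ (r + 1)) ^ (1 / ((r : ℝ) + 1)) :=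
        Real.rpow_le_rpow (by positivity) h4 (by positivity)
      have h6 : ((n : ℝ) ^ (r - 1)) ^ (1 / ((r : ℝ) + 1)) =
          (n : ℝ) ^ (1 - 2 / ((r : ℝ) + 1)) := by
        rw [← Real.rpow_natCast, ← Real.rpow_mul hn0.le]
        congr 1
        rw [Nat.cast_sub (by omega)]
        push_cast
        field_simp
        ring
      have h7 : (((4 * s : ℕ) : ℝ) ^ (r + 1)) ^ (1 / ((r : ℝ) + 1)) = ((4 * s : ℕ) : ℝ) := by
        rw [← Real.rpow_natCast, ← Real.rpow_mul (Nat.cast_nonneg _)]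
        push_cast
        rw [mul_one_div_cancel hr1, Real.rpow_one]
      rw [h6, h7] at h5
      push_cast at h5
      linarith
    · refine (min_le_left _ _).trans ?_
      have : w + 1 ≤ 6 * s := by omega
      exact_mod_cast this
  by_cases h1 : P 1
  · obtain ⟨s, hs⟩ : ∃ s, s = Nat.findGreatest P n := ⟨_, rfl⟩
    have hPs : P s := by rw [hs]; exact Nat.findGreatest_spec (m := 1) (by omega) h1
    have hs1 : 1 ≤ s := by rw [hs]; exact Nat.le_findGreatest (by omega) h1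
    have hnP : ¬ P (s + 1) := by
      intro hP1
      have hle : s + 1 ≤ n := by
        have h3 := hpos (s + 1) (by omega) hP1
        have h4 : 2 * (s + 1) ≤ n := by
          have := (Nat.one_le_div_iff (show 0 < 2 * (s + 1) by omega)).1 h3
          exact this
        omega
      exact Nat.findGreatest_is_greatest (P := P) (n := n) (k := s + 1)
        (by rw [← hs]; exact Nat.lt_succ_self _) hle hP1
    have hN1 := hpos s hs1 hPs
    have hq := hquot s hs1
    have hmul : 2 * s * (n / (2 * s)) ≤ n := Nat.mul_div_le n (2 * s)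
    obtain ⟨N, hN⟩ : ∃ N, N = n / (2 * s) := ⟨_, rfl⟩
    have hPs2 := hPs.2
    rw [← hN] at hN1 hq hmul hPs2
    obtain ⟨V, hV, G, g1, g2, g3, g4⟩ := krr_graph r s N hr hs1 hN1 hPs2
    refine ⟨V, hV, G, ?_, twinWidth_mono G hPs.1 g2, g3, ?_⟩
    · rw [g1]
      have e : 2 * (s * N) = 2 * s * N := by ring
      omega
    · have h6 := hmin (s + 1) (by omega) hnP
      have h7 : s * n ≤ 8 * Nat.card G.edgeSet := by
        have a1 : n ≤ 4 * (s * N) := by
          have : 2 * s * (N + 1) ≤ 2 * s * (2 * N) := Nat.mul_le_mul_left _ (by omega)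
          have e : 2 * s * (2 * N) = 4 * (s * N) := by ring
          omega
        have a2 : s * n ≤ s * (4 * (s * N)) := Nat.mul_le_mul_left _ a1
        have e : s * (4 * (s * N)) = 4 * (s * s * N) := by ring
        omega
      have h8 : (s : ℝ) * n ≤ 8 * Nat.card G.edgeSet := by exact_mod_cast h7
      have hs1' : (1 : ℝ) ≤ s := by exact_mod_cast hs1
      have h9 : (n : ℝ) * min ((w : ℝ) + 1) ((n : ℝ) ^ (1 - 2 / ((r : ℝ) + 1))) ≤
          n * (12 * s) := by
        apply mul_le_mul_of_nonneg_left _ hn0.le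
        push_cast at h6
        linarith
      linarith
  · obtain ⟨V, hV, G, g1, g2, g3, g4⟩ := matching n hn
    refine ⟨V, hV, G, g1, twinWidth_mono G (Nat.zero_le _) g2, noK_mono2 hr g3, ?_⟩
    have h6 := hmin 1 le_rfl h1
    have h8 : (n : ℝ) ≤ 4 * Nat.card G.edgeSet := by exact_mod_cast g4
    have h9 : (n : ℝ) * min ((w : ℝ) + 1) ((n : ℝ) ^ (1 - 2 / ((r : ℝ) + 1))) ≤ n * 6 := by
      apply mul_le_mul_of_nonneg_left _ hn0.le
      push_cast at h6
      linarith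
    linarith

end Pool.Agent.Y422.TG
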