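import Pool.Agent.Y422.TG.Graph
import Pool.Agent.Y422.TZ.Main
import Pool.Agent.H607R2.BW.GIR
import Pool.Agent.TH815.GR2

/-!
# The two-parameter girth problem
-/

set_option autoImplicit false

namespace Pool.Agent.Y422.TG

open Finset Pool.Agent.Y422.TW Pool.Agent.Y422.TZ

/-- disjoint copies of the graph -/
theorem lower_graph (p m n : ℕ) [Fact p.Prime] (hm : 2 ≤ m) (hn : 2 * p ^ (3 * m / 2 - 1) ≤ n) :
    ∃ (V : Type) (_ : Fintype V) (G : SimpleGraph V), Fintype.card V ≤ n ∧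
      TwinWidthLE G (6 * p) ∧ ((2 * m : ℕ) : ℕ∞) < G.egirth ∧ p * n ≤ 4 * Nat.card G.edgeSet := by
  classical
  obtain ⟨K, hK⟩ : ∃ K, K = 3 * m / 2 - 1 := ⟨_, rfl⟩
  rw [← hK] at hn
  have hK1 : K + 1 = 3 * m / 2 := by omega
  have hK2 : 2 ≤ K := by omega
  obtain ⟨N, hN⟩ : ∃ N, N = Fintype.card (Vtx (ZMod p) K) := ⟨_, rfl⟩
  have hNpos : 0 < N := by rw [hN]; exact Fintype.card_pos
  have hNn : N ≤ n := by rw [hN]; exact card_Vtx_le.trans hn
  obtain ⟨M, hMdef⟩ : ∃ M, M = n / N := ⟨_, rfl⟩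
  have hM : 1 ≤ M := by rw [hMdef]; exact (Nat.one_le_div_iff hNpos).2 hNn
  have hcard : Fintype.card (Fin M × Vtx (ZMod p) K) = M * N := by
    rw [Fintype.card_prod, Fintype.card_fin, hN]
  refine ⟨Fin M × Vtx (ZMod p) K, inferInstance, copies M (Gr (ZMod p) K), ?_, ?_, ?_, ?_⟩
  · rw [hcard, hMdef]
    exact Nat.div_mul_le_self n N
  · exact twinWidth_tri M _ tri_Gr hK2 hM
  · exact egirth_of_noShort _ _ (noShort_copies _ _ _ (noShort_Gr hK1 (by omega)))
  · have h1 := edges_ge (copies M (Gr (ZMod p) K)) p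
      (copies_deg _ _ (fun v => deg_Gr (by omega) v))
    rw [hcard] at h1
    have h3 : n ≤ 2 * (M * N) := by
      have h4 : n < (M + 1) * N := by
        rw [hMdef]
        exact Nat.lt_mul_of_div_lt (Nat.lt_succ_self _) hNpos
      have h5 : 1 * N ≤ M * N := Nat.mul_le_mul_right _ hM
      have h6 : (M + 1) * N = M * N + N := by ring
      omega
    calc p * n ≤ p * (2 * (M * N)) := Nat.mul_le_mul_left _ h3
      _ = 2 * (p * (M * N)) := by ring
      _ ≤ 4 * Nat.card (copies M (Gr (ZMod p) K)).edgeSet := by omega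

theorem fin2_third : ∀ a b c : Fin 2, a ≠ b → c = a ∨ c = b := by decide

/-- disjoint edges -/
theorem matching_girth (n N : ℕ) (hn : 2 ≤ n) :
    ∃ (V : Type) (_ : Fintype V) (G : SimpleGraph V), Fintype.card V ≤ n ∧
      TwinWidthLE G 0 ∧ (N : ℕ∞) < G.egirth ∧ n ≤ 4 * Nat.card G.edgeSet := by
  classical
  obtain ⟨M, hM⟩ : ∃ M, M = n / 2 := ⟨_, rfl⟩
  have hM1 : 1 ≤ M := by omega
  have hne : Nonempty (Fin M × Fin 2) := ⟨(⟨0, hM1⟩, 0)⟩
  refine ⟨Fin M × Fin 2, inferInstance, copies M ⊤, ?_, ?_, ?_, ?_⟩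
  · rw [Fintype.card_prod, Fintype.card_fin, Fintype.card_fin]
    omega
  · apply twinWidthLE_of _ _ (fun v => v) (fun _ _ h => h)
    refine Relation.ReflTransGen.trans (b := parts (fun v : Fin M × Fin 2 => v.1)) ?_
      (coarsen_free _ _ _ _ (fun _ _ _ => rfl) (fun u v h => h.1))
    refine coarsen_homog _ _ _ _ (fun u v h => by rw [h]) ?_
    intro f' _ h2 c b hfne
    by_contra hh
    have h3 : ¬ ∀ y ∈ cls f' c, ∀ x ∈ cls f' b, ¬ (copies M (⊤ : SimpleGraph (Fin 2))).Adj y x :=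
      fun h => hh (Or.inr h)
    push Not at h3
    obtain ⟨y, hy, x, hx, hyx⟩ := h3
    rw [mem_cls] at hy hx
    have hxy1 : y.1 = x.1 := hyx.1
    have hxy2 : y.2 ≠ x.2 := hyx.2
    apply hh
    left
    intro y' hy' x' hx'
    rw [mem_cls] at hy' hx'
    have a1 : y'.1 = y.1 := h2 _ _ (hy'.trans hy.symm)
    have a2 : x'.1 = x.1 := h2 _ _ (hx'.trans hx.symm)
    refine ⟨a1.trans (hxy1.trans a2.symm), ?_⟩
    show y'.2 ≠ x'.2
    have b1 : y' = y := by
      rcases fin2_third _ _ y'.2 hxy2 with h | h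
      · exact Prod.ext a1 h
      · exfalso
        have : y' = x := Prod.ext (a1.trans hxy1) h
        rw [this] at hy'
        exact hfne (hy'.symm.trans hx)
    have b2 : x' = x := by
      rcases fin2_third _ _ x'.2 hxy2 with h | h
      · exfalso
        have : x' = y := Prod.ext (a2.trans hxy1.symm) h
        rw [this] at hx'
        exact hfne (hy.symm.trans hx')
      · exact Prod.ext a2 h
    rw [b1, b2]
    exact hxy2
  · apply egirth_of_noShort
    intro k f _ _ _ hA hB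
    apply hB 0
    have h1 : (f 0).2 ≠ (f 1).2 := (hA 0).2
    have h2 : (f 1).2 ≠ (f 2).2 := (hA 1).2
    refine Prod.ext ((hA 0).1.trans (hA 1).1).symm ?_
    rcases fin2_third _ _ (f 2).2 h1 with h | h
    · exact h
    · exact absurd h.symm h2
  · have h1 := edges_ge (copies M (⊤ : SimpleGraph (Fin 2))) 1
      (copies_deg _ _ (fun v => ⟨univ.erase v, by
        rw [card_erase_of_mem (mem_univ _), card_univ, Fintype.card_fin], fun w hw => by
        rw [SimpleGraph.top_adj]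
        exact (ne_of_mem_erase hw).symm⟩))
    rw [Fintype.card_prod, Fintype.card_fin, Fintype.card_fin] at h1
    omega

/-- the lower bound -/
theorem lower_girth (m : ℕ) (hm : 2 ≤ m) (n w : ℕ) (hn : 2 ≤ n) :
    ∃ (V : Type) (_ : Fintype V) (G : SimpleGraph V), Fintype.card V ≤ n ∧
      TwinWidthLE G w ∧ ((2 * m : ℕ) : ℕ∞) < G.egirth ∧
      1 / 48 * ((n : ℝ) * min ((w : ℝ) + 1) ((n : ℝ) ^ (1 / ((3 * m / 2 - 1 : ℕ) : ℝ)))) ≤
        Nat.card G.edgeSet := by
  classical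
  obtain ⟨K, hK⟩ : ∃ K, K = 3 * m / 2 - 1 := ⟨_, rfl⟩
  rw [← hK]
  have hK2 : 2 ≤ K := by omega
  have hn1 : (1 : ℝ) ≤ n := by exact_mod_cast (by omega : 1 ≤ n)
  have hn0 : (0 : ℝ) < n := by linarith
  set P : ℕ → Prop := fun s => 6 * s ≤ w ∧ 2 * s ^ K ≤ n with hP
  have hmin : ∀ s, ¬ P s → min ((w : ℝ) + 1) ((n : ℝ) ^ (1 / (K : ℝ))) ≤ 6 * s := by
    intro s hs
    by_cases h1 : 6 * s ≤ w
    · have h2 : n < 2 * s ^ K := by
        by_contra hcon
        exact hs ⟨h1, not_lt.1 hcon⟩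
      refine (min_le_right _ _).trans ?_
      have h3 : (n : ℝ) ≤ ((2 * s : ℕ) : ℝ) ^ (K : ℝ) := by
        rw [Real.rpow_natCast]
        have h4 : n ≤ (2 * s) ^ K := by
          rw [mul_pow]
          have h5 : 2 ≤ 2 ^ K := by
            calc 2 = 2 ^ 1 := by norm_num
              _ ≤ 2 ^ K := Nat.pow_le_pow_right (by norm_num) (by omega)
          have h6 := Nat.mul_le_mul_right (s ^ K) h5
          omega
        exact_mod_cast h4
      have h4 : (n : ℝ) ^ (1 / (K : ℝ)) ≤ (((2 * s : ℕ) : ℝ) ^ (K : ℝ)) ^ (1 / (K : ℝ)) :=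
        Real.rpow_le_rpow hn0.le h3 (by positivity)
      have hK0 : (K : ℝ) ≠ 0 := by
        have : (0 : ℝ) < K := by exact_mod_cast (by omega : 0 < K)
        exact this.ne'
      have h5 : (((2 * s : ℕ) : ℝ) ^ (K : ℝ)) ^ (1 / (K : ℝ)) = ((2 * s : ℕ) : ℝ) := by
        rw [← Real.rpow_mul (Nat.cast_nonneg _), mul_one_div_cancel hK0, Real.rpow_one]
      rw [h5] at h4
      push_cast at h4
      have : (0 : ℝ) ≤ s := Nat.cast_nonneg _
      linarith
    · refine (min_le_left _ _).trans ?_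
      have : w + 1 ≤ 6 * s := by omega
      exact_mod_cast this
  by_cases h2 : P 2
  · obtain ⟨s, hs⟩ : ∃ s, s = Nat.findGreatest P n := ⟨_, rfl⟩
    have hPs : P s := by rw [hs]; exact Nat.findGreatest_spec hn h2
    have hs2 : 2 ≤ s := by rw [hs]; exact Nat.le_findGreatest hn h2
    have hnP : ¬ P (s + 1) := by
      intro hP1
      have hle : s + 1 ≤ n := by
        have h1 : s + 1 ≤ (s + 1) ^ K := Nat.le_self_pow (by omega) _
        have h3 := hP1.2
        omega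
      exact Nat.findGreatest_is_greatest (P := P) (n := n) (k := s + 1)
        (by rw [← hs]; exact Nat.lt_succ_self _) hle hP1
    obtain ⟨p, hp, hp1, hp2⟩ := Nat.exists_prime_lt_and_le_two_mul (s / 2) (by omega)
    have hps : p ≤ s := by omega
    have hps2 : s + 1 ≤ 2 * p := by omega
    have : Fact p.Prime := ⟨hp⟩
    have hpn : 2 * p ^ (3 * m / 2 - 1) ≤ n := by
      rw [← hK]
      exact (Nat.mul_le_mul_left 2 (Nat.pow_le_pow_left hps K)).trans hPs.2
    obtain ⟨V, hV, G, g1, g2, g3, g4⟩ := lower_graph p m n hm hpn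
    refine ⟨V, hV, G, g1, twinWidth_mono G (by have := hPs.1; omega) g2, g3, ?_⟩
    have h6 := hmin (s + 1) hnP
    have h7 : ((s + 1 : ℕ) : ℝ) ≤ 2 * p := by exact_mod_cast hps2
    have h8 : (p : ℝ) * n ≤ 4 * Nat.card G.edgeSet := by exact_mod_cast g4
    have h9 : (n : ℝ) * min ((w : ℝ) + 1) ((n : ℝ) ^ (1 / (K : ℝ))) ≤ n * (12 * p) :=
      mul_le_mul_of_nonneg_left (by linarith) hn0.le
    linarith
  · obtain ⟨V, hV, G, g1, g2, g3, g4⟩ := matching_girth n (2 * m) hn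
    refine ⟨V, hV, G, g1, twinWidth_mono G (Nat.zero_le _) g2, g3, ?_⟩
    have h6 := hmin 2 h2
    have h8 : (n : ℝ) ≤ 4 * Nat.card G.edgeSet := by exact_mod_cast g4
    have h9 : (n : ℝ) * min ((w : ℝ) + 1) ((n : ℝ) ^ (1 / (K : ℝ))) ≤ n * 12 :=
      mul_le_mul_of_nonneg_left (by push_cast at h6; linarith) hn0.le
    linarith

/-- the Moore bound -/
theorem moore {V : Type} [Fintype V] (G : SimpleGraph V) (m n : ℕ) (hm : 1 ≤ m)
    (hn : 1 ≤ n) (hV : Fintype.card V ≤ n) (hg : ((2 * m : ℕ) : ℕ∞) < G.egirth) :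
    (Nat.card G.edgeSet : ℝ) ≤ 4 * (n * (n : ℝ) ^ (1 / (m : ℝ))) := by
  classical
  rw [Pool.TH815.GR.egirth_iff] at hg
  have hn1 : (1 : ℝ) ≤ n := by exact_mod_cast hn
  have hn0 : (0 : ℝ) < n := by linarith
  have hNn : ((Fintype.card V : ℕ) : ℝ) ≤ n := by exact_mod_cast hV
  have hm0 : (0 : ℝ) < m := by exact_mod_cast hm
  have hone : (1 : ℝ) ≤ (n : ℝ) ^ (1 / (m : ℝ)) := Real.one_le_rpow hn1 (by positivity)
  have hf : ∑ x ∈ univ, (G.degree x : ℝ) = 2 * Nat.card G.edgeSet := by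
    have h1 := SimpleGraph.sum_degrees_eq_twice_card_edges G
    have h2 : Nat.card G.edgeSet = G.edgeFinset.card := card_edgeSet G
    rw [h2]
    exact_mod_cast h1
  by_cases h8 : 8 * ((Fintype.card V : ℕ) : ℝ) ≤ ∑ x ∈ univ, (G.degree x : ℝ)
  · rcases Nat.eq_zero_or_pos (Fintype.card V) with h0 | h0
    · have hV0 : IsEmpty V := Fintype.card_eq_zero_iff.1 h0
      have h1 : ∑ x ∈ univ, (G.degree x : ℝ) = 0 := by
        rw [univ_eq_empty, sum_empty]
      rw [h1] at hf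
      have h3 : (0 : ℝ) ≤ 4 * (n * (n : ℝ) ^ (1 / (m : ℝ))) := by positivity
      linarith
    · have hN0 : (0 : ℝ) < ((Fintype.card V : ℕ) : ℝ) := by exact_mod_cast h0
      have hne : (univ : Finset V).Nonempty := card_pos.1 (by rw [card_univ]; exact h0)
      have h1 := Pool.TH815.GR.arcs_bound G hg univ hne _ rfl h8
      rw [card_univ, Real.sqrt_mul_self hN0.le, hf] at h1
      obtain ⟨x, hx⟩ : ∃ x : ℝ, x = 2 * (Nat.card G.edgeSet : ℝ) /
        (8 * ((Fintype.card V : ℕ) : ℝ)) := ⟨_, rfl⟩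
      rw [← hx] at h1
      have hx0 : 0 ≤ x := by rw [hx]; positivity
      have h2 : x ≤ (n : ℝ) ^ (1 / (m : ℝ)) := by
        have h3 : (x ^ m) ^ (1 / (m : ℝ)) ≤ (n : ℝ) ^ (1 / (m : ℝ)) :=
          Real.rpow_le_rpow (by positivity) (h1.trans hNn) (by positivity)
        rwa [← Real.rpow_natCast, ← Real.rpow_mul hx0, mul_one_div_cancel hm0.ne',
          Real.rpow_one] at h3
      rw [hx, div_le_iff₀ (by positivity)] at h2
      have h4 : (n : ℝ) ^ (1 / (m : ℝ)) * (8 * ((Fintype.card V : ℕ) : ℝ)) ≤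
          (n : ℝ) ^ (1 / (m : ℝ)) * (8 * n) :=
        mul_le_mul_of_nonneg_left (by linarith) (by positivity)
      linarith
  · push Not at h8
    rw [hf] at h8
    have h4 : (n : ℝ) * 1 ≤ n * (n : ℝ) ^ (1 / (m : ℝ)) := mul_le_mul_of_nonneg_left hone hn0.le
    linarith

/-- the upper bound -/
theorem upper_girth {V : Type} [Fintype V] (G : SimpleGraph V) (m w n : ℕ) (hm : 2 ≤ m)
    (hn : 1 ≤ n) (hV : Fintype.card V ≤ n) (hw : TwinWidthLE G w)
    (hg : ((2 * m : ℕ) : ℕ∞) < G.egirth) :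
    (Nat.card G.edgeSet : ℝ) ≤ 6 * ((n : ℝ) * min ((w : ℝ) + 1) ((n : ℝ) ^ (1 / (m : ℝ)))) := by
  have h4 : 4 < G.egirth := by
    refine lt_of_le_of_lt ?_ hg
    have : 4 ≤ 2 * m := by omega
    exact_mod_cast this
  have hfree := Pool.Agent.H607R2.BW.t_GIR V G h4
  have h1 := tww_edges G w 2 2 (by norm_num) hw hfree
  have h2 := moore G m n (by omega) hn hV hg
  have hn0 : (0 : ℝ) < n := by exact_mod_cast hn
  have hw0 : (0 : ℝ) ≤ w := Nat.cast_nonneg _
  rcases min_cases ((w : ℝ) + 1) ((n : ℝ) ^ (1 / (m : ℝ))) with ⟨h, -⟩ | ⟨h, -⟩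
  · rw [h]
    have h3 : (Nat.card G.edgeSet : ℝ) ≤ (2 + 2 * 2 * (w + 1)) * Fintype.card V := by
      exact_mod_cast h1
    have h5 : ((Fintype.card V : ℕ) : ℝ) ≤ n := by exact_mod_cast hV
    calc (Nat.card G.edgeSet : ℝ) ≤ (2 + 2 * 2 * (w + 1)) * Fintype.card V := h3
      _ ≤ (2 + 2 * 2 * (w + 1)) * n := mul_le_mul_of_nonneg_left h5 (by positivity)
      _ ≤ (6 * (w + 1)) * n := by
          apply mul_le_mul_of_nonneg_right _ hn0.le
          linarith
      _ = 6 * (n * (w + 1)) := by ring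
  · rw [h]
    have h5 : (0 : ℝ) ≤ n * (n : ℝ) ^ (1 / (m : ℝ)) := by positivity
    linarith

end Pool.Agent.Y422.TG
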