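import Mathlib

/-!
# Alternating products of elementary matrices over a polynomial ring

Matrices with rows `(a, b)`, `(t c, d)` over `F[t]`, generated from the identity by multiplication
from the right with `(1, α; 0, 1)` and `(1, 0; β t, 1)`. They have two systems of coordinates,
invariant under the first and the second kind of moves, which determine each other in a triangular
way.
-/

set_option autoImplicit false

namespace Pool.Agent.Y422.TG

open Polynomial Finset

/-- the matrix with rows `(a, b)` and `(t c, d)` -/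
@[ext] structure Tup (F : Type) [Field F] where
  /-- upper left entry -/
  a : F[X]
  /-- upper right entry -/
  b : F[X]
  /-- lower left entry divided by the variable -/
  c : F[X]
  /-- lower right entry -/
  d : F[X]

variable {F : Type} [Field F]

/-- multiplication from the right by the matrix with rows `(1, α)`, `(0, 1)` -/
noncomputable def Tup.u (g : Tup F) (α : F) : Tup F :=
  ⟨g.a, g.b + C α * g.a, g.c, g.d + C α * (X * g.c)⟩

/-- multiplication from the right by the matrix with rows `(1, 0)`, `(β t, 1)` -/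
noncomputable def Tup.v (g : Tup F) (β : F) : Tup F :=
  ⟨g.a + C β * (X * g.b), g.b, g.c + C β * g.d, g.d⟩

theorem Tup.u_zero (g : Tup F) : g.u 0 = g := by
  ext1 <;> simp [Tup.u]

theorem Tup.v_zero (g : Tup F) : g.v 0 = g := by
  ext1 <;> simp [Tup.v]

/-- the matrices obtained from the identity -/
inductive Reach : Tup F → Prop
  | one : Reach ⟨1, 0, 0, 1⟩
  | u (g : Tup F) (α : F) : Reach g → Reach (g.u α)
  | v (g : Tup F) (β : F) : Reach g → Reach (g.v β)

theorem Reach.det {g : Tup F} (h : Reach g) : g.a * g.d - X * (g.b * g.c) = 1 := by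
  induction h with
  | one => simp
  | u g α _ ih => simp only [Tup.u]; linear_combination ih
  | v g β _ ih => simp only [Tup.v]; linear_combination ih

theorem Reach.a0 {g : Tup F} (h : Reach g) : g.a.coeff 0 = 1 := by
  induction h with
  | one => simp
  | u g α _ ih => simpa [Tup.u] using ih
  | v g β _ ih => simpa [Tup.v, mul_coeff_zero] using ih

theorem Reach.d0 {g : Tup F} (h : Reach g) : g.d.coeff 0 = 1 := by
  induction h with
  | one => simp
  | u g α _ ih => simpa [Tup.u, mul_coeff_zero] using ih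
  | v g β _ ih => simpa [Tup.v] using ih

/-- the coordinates which do not change under `u` -/
noncomputable def Tup.xc (g : Tup F) : ℕ → F
  | 0 => g.c.coeff 0
  | j + 1 => if j % 3 = 0 then g.a.coeff (j / 3 + 1)
      else if j % 3 = 1 then g.b.coeff (j / 3 + 1) - g.b.coeff 0 * g.a.coeff (j / 3 + 1)
      else g.c.coeff (j / 3 + 1)

/-- the coordinates which do not change under `v` -/
noncomputable def Tup.yc (g : Tup F) : ℕ → F
  | 0 => g.b.coeff 0
  | j + 1 => if j % 3 = 0 then - g.d.coeff (j / 3 + 1)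
      else if j % 3 = 1 then g.b.coeff (j / 3 + 1)
      else g.c.coeff (j / 3 + 1) - g.c.coeff 0 * g.d.coeff (j / 3 + 1)

theorem Tup.xc_succ (g : Tup F) (j : ℕ) : g.xc (j + 1) = if j % 3 = 0 then g.a.coeff (j / 3 + 1)
      else if j % 3 = 1 then g.b.coeff (j / 3 + 1) - g.b.coeff 0 * g.a.coeff (j / 3 + 1)
      else g.c.coeff (j / 3 + 1) := rfl

theorem Tup.yc_succ (g : Tup F) (j : ℕ) : g.yc (j + 1) = if j % 3 = 0 then - g.d.coeff (j / 3 + 1)
      else if j % 3 = 1 then g.b.coeff (j / 3 + 1)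
      else g.c.coeff (j / 3 + 1) - g.c.coeff 0 * g.d.coeff (j / 3 + 1) := rfl

theorem Reach.xc_u {g : Tup F} (h : Reach g) (α : F) (j : ℕ) : (g.u α).xc j = g.xc j := by
  cases j with
  | zero => rfl
  | succ j =>
    rw [Tup.xc_succ, Tup.xc_succ]
    split_ifs
    · rfl
    · simp only [Tup.u, coeff_add, coeff_C_mul, h.a0]
      ring
    · rfl

theorem Reach.yc_v {g : Tup F} (h : Reach g) (β : F) (j : ℕ) : (g.v β).yc j = g.yc j := by
  cases j with
  | zero => rfl
  | succ j =>
    rw [Tup.yc_succ, Tup.yc_succ]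
    split_ifs
    · rfl
    · rfl
    · simp only [Tup.v, coeff_add, coeff_C_mul, h.d0]
      ring

theorem Reach.yc_u {g : Tup F} (h : Reach g) (α : F) : (g.u α).yc 0 = g.yc 0 + α := by
  simp only [Tup.yc, Tup.u, coeff_add, coeff_C_mul, h.a0, mul_one]

theorem Reach.xc_v {g : Tup F} (h : Reach g) (β : F) : (g.v β).xc 0 = g.xc 0 + β := by
  simp only [Tup.xc, Tup.v, coeff_add, coeff_C_mul, h.d0, mul_one]

/-- the two systems of coordinates agree below `J` -/
def Agree (J : ℕ) (g g' : Tup F) : Prop := ∀ i < J, g.xc i = g'.xc i ∧ g.yc i = g'.yc i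

theorem Agree.ad {J : ℕ} {g g' : Tup F} (h : Reach g) (h' : Reach g') (H : Agree J g g') (i : ℕ)
    (hi : 3 * i < J + 2) : g.a.coeff i = g'.a.coeff i ∧ g.d.coeff i = g'.d.coeff i := by
  cases i with
  | zero => exact ⟨h.a0.trans h'.a0.symm, h.d0.trans h'.d0.symm⟩
  | succ k =>
    obtain ⟨h1, h2⟩ := H (3 * k + 1) (by omega)
    have e1 : 3 * k % 3 = 0 := by omega
    have e2 : 3 * k / 3 = k := by omega
    simp only [Tup.xc, Tup.yc, e1, e2, if_true] at h1 h2
    exact ⟨h1, neg_injective h2⟩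

theorem Agree.b {J : ℕ} {g g' : Tup F} (H : Agree J g g') (i : ℕ) (hJ : 0 < J)
    (hi : 3 * i < J + 1) : g.b.coeff i = g'.b.coeff i := by
  cases i with
  | zero => exact (H 0 hJ).2
  | succ k =>
    obtain ⟨-, h2⟩ := H (3 * k + 1 + 1) (by omega)
    have e1 : (3 * k + 1) % 3 = 1 := by omega
    have e2 : (3 * k + 1) / 3 = k := by omega
    simpa [Tup.yc, e1, e2] using h2

theorem Agree.c {J : ℕ} {g g' : Tup F} (H : Agree J g g') (i : ℕ)
    (hi : 3 * i < J) : g.c.coeff i = g'.c.coeff i := by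
  cases i with
  | zero => exact (H 0 (by omega)).1
  | succ k =>
    obtain ⟨h1, -⟩ := H (3 * k + 2 + 1) (by omega)
    have e1 : (3 * k + 2) % 3 = 2 := by omega
    have e2 : (3 * k + 2) / 3 = k := by omega
    simpa [Tup.xc, e1, e2] using h1

/-- the sum of the two coefficients of the diagonal is determined by lower coordinates -/
theorem ad_sum {g g' : Tup F} (h : Reach g) (h' : Reach g') (s : ℕ)
    (H : Agree (3 * s + 1) g g') :
    g.a.coeff (s + 1) + g.d.coeff (s + 1) = g'.a.coeff (s + 1) + g'.d.coeff (s + 1) := by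
  have h1 : ∀ {g : Tup F}, Reach g →
      ∑ p ∈ antidiagonal (s + 1), g.a.coeff p.1 * g.d.coeff p.2 =
        ∑ p ∈ antidiagonal s, g.b.coeff p.1 * g.c.coeff p.2 := by
    intro g h
    have h2 := congrArg (fun f : F[X] => f.coeff (s + 1)) h.det
    simp only [coeff_sub, coeff_X_mul] at h2
    rw [coeff_mul, coeff_mul, coeff_one, if_neg (by omega)] at h2
    exact sub_eq_zero.1 h2
  have h2 : ∑ p ∈ antidiagonal s, g.b.coeff p.1 * g.c.coeff p.2 =
      ∑ p ∈ antidiagonal s, g'.b.coeff p.1 * g'.c.coeff p.2 := by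
    apply sum_congr rfl
    intro p hp
    rw [HasAntidiagonal.mem_antidiagonal] at hp
    rw [H.b p.1 (by omega) (by omega), H.c p.2 (by omega)]
  have h3 : ∑ p ∈ antidiagonal (s + 1), (g.a.coeff p.1 * g.d.coeff p.2 -
      g'.a.coeff p.1 * g'.d.coeff p.2) = 0 := by
    rw [sum_sub_distrib, h1 h, h1 h', h2, sub_self]
  rw [sum_eq_add (0, s + 1) (s + 1, 0) (by simp) ?_ (by simp) (by simp)] at h3
  · simp only [h.a0, h.d0, h'.a0, h'.d0] at h3
    linear_combination h3
  · rintro ⟨x, y⟩ hxy ⟨hne1, hne2⟩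
    rw [HasAntidiagonal.mem_antidiagonal] at hxy
    have hx : x ≠ 0 := by
      rintro rfl
      apply hne1
      rw [show y = s + 1 by omega]
    have hy : y ≠ 0 := by
      rintro rfl
      apply hne2
      rw [show x = s + 1 by omega]
    rw [(H.ad h h' x (by omega)).1, (H.ad h h' y (by omega)).2, sub_self]

/-- **Triangularity.** -/
theorem triangular {g g' : Tup F} (h : Reach g) (h' : Reach g') (j : ℕ) (hj : 1 ≤ j)
    (H : Agree j g g') : g.xc j - g.yc j = g'.xc j - g'.yc j := by
  obtain ⟨k, rfl⟩ : ∃ k, j = k + 1 := ⟨j - 1, by omega⟩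
  rw [Tup.xc_succ, Tup.xc_succ, Tup.yc_succ, Tup.yc_succ]
  obtain ⟨s, hs⟩ : ∃ s, s = k / 3 := ⟨_, rfl⟩
  rw [← hs]
  by_cases h0 : k % 3 = 0
  · simp only [h0, if_true]
    have hk : k + 1 = 3 * s + 1 := by omega
    rw [hk] at H
    have := ad_sum h h' s H
    linear_combination this
  · by_cases h1 : k % 3 = 1
    · have h10 : ¬ ((1 : ℕ) = 0) := by norm_num
      simp only [h1, if_true, if_neg h10]
      rw [(H.ad h h' (s + 1) (by omega)).1, H.b 0 (by omega) (by omega)]
      ring
    · have h2 : k % 3 = 2 := by omega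
      have h20 : ¬ ((2 : ℕ) = 0) := by norm_num
      have h21 : ¬ ((2 : ℕ) = 1) := by norm_num
      simp only [h2, if_neg h20, if_neg h21]
      rw [(H.ad h h' (s + 1) (by omega)).2, H.c 0 (by omega)]
      ring

/-- coordinates with the same `x` and the same first `y` -/
theorem agree_of_x {g g' : Tup F} (h : Reach g) (h' : Reach g') (K : ℕ)
    (hx : ∀ j < K, g.xc j = g'.xc j) (h0 : g.yc 0 = g'.yc 0) : Agree K g g' := by
  intro j hj
  refine ⟨hx j hj, ?_⟩
  induction j using Nat.strong_induction_on with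
  | _ j ih =>
    rcases Nat.eq_zero_or_pos j with rfl | hj0
    · exact h0
    · have := triangular h h' j hj0 (fun i hi => ⟨hx i (by omega), ih i hi (by omega)⟩)
      rw [hx j hj] at this
      exact sub_right_injective this

/-- coordinates with the same `y` and the same first `x` -/
theorem agree_of_y {g g' : Tup F} (h : Reach g) (h' : Reach g') (K : ℕ)
    (hy : ∀ j < K, g.yc j = g'.yc j) (h0 : g.xc 0 = g'.xc 0) : Agree K g g' := by
  intro j hj
  refine ⟨?_, hy j hj⟩
  induction j using Nat.strong_induction_on with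
  | _ j ih =>
    rcases Nat.eq_zero_or_pos j with rfl | hj0
    · exact h0
    · have := triangular h h' j hj0 (fun i hi => ⟨ih i hi (by omega), hy i (by omega)⟩)
      rw [hy j hj] at this
      exact sub_left_injective this

/-! ### The first row of the quotient of two matrices -/

/-- the first row of `g0⁻¹ g` -/
noncomputable def row (g0 g : Tup F) : F[X] × F[X] :=
  (g0.d * g.a - X * (g0.b * g.c), g0.d * g.b - g0.b * g.d)

theorem row_self {g : Tup F} (h : Reach g) : row g g = (1, 0) := by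
  unfold row
  rw [Prod.mk.injEq]
  exact ⟨by linear_combination h.det, by ring⟩

theorem row_u (g0 g : Tup F) (α : F) :
    row g0 (g.u α) = ((row g0 g).1, (row g0 g).2 + C α * (row g0 g).1) := by
  unfold row Tup.u
  rw [Prod.mk.injEq]
  exact ⟨rfl, by ring⟩

theorem row_v (g0 g : Tup F) (β : F) :
    row g0 (g.v β) = ((row g0 g).1 + C β * (X * (row g0 g).2), (row g0 g).2) := by
  unfold row Tup.v
  rw [Prod.mk.injEq]
  exact ⟨by ring, rfl⟩

theorem row_congr1 {K : ℕ} {g g' : Tup F} (g0 : Tup F) (h : Reach g) (h' : Reach g')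
    (H : Agree K g g') (i : ℕ) (hi : 3 * i < K + 2) :
    (row g0 g).1.coeff i = (row g0 g').1.coeff i := by
  unfold row
  simp only [coeff_sub]
  congr 1
  · rw [coeff_mul, coeff_mul]
    apply sum_congr rfl
    intro p hp
    rw [HasAntidiagonal.mem_antidiagonal] at hp
    rw [(H.ad h h' p.2 (by omega)).1]
  · cases i with
    | zero => simp
    | succ i =>
      rw [coeff_X_mul, coeff_X_mul, coeff_mul, coeff_mul]
      apply sum_congr rfl
      intro p hp
      rw [HasAntidiagonal.mem_antidiagonal] at hp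
      rw [H.c p.2 (by omega)]

theorem row_congr2 {K : ℕ} {g g' : Tup F} (g0 : Tup F) (h : Reach g) (h' : Reach g')
    (H : Agree K g g') (i : ℕ) (hK : 0 < K) (hi : 3 * i < K + 1) :
    (row g0 g).2.coeff i = (row g0 g').2.coeff i := by
  unfold row
  simp only [coeff_sub]
  congr 1
  · rw [coeff_mul, coeff_mul]
    apply sum_congr rfl
    intro p hp
    rw [HasAntidiagonal.mem_antidiagonal] at hp
    rw [H.b p.2 hK (by omega)]
  · rw [coeff_mul, coeff_mul]
    apply sum_congr rfl
    intro p hp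
    rw [HasAntidiagonal.mem_antidiagonal] at hp
    rw [(H.ad h h' p.2 (by omega)).2]

/-- the row has degree at most `k` -/
def Lev (k : ℕ) (r : F[X] × F[X]) : Prop :=
  (∀ i, k < 2 * i → r.1.coeff i = 0) ∧ ∀ i, k < 2 * i + 1 → r.2.coeff i = 0

/-- the coefficient of degree `k` is not zero -/
def Top (k : ℕ) (r : F[X] × F[X]) : Prop :=
  (k % 2 = 0 → r.1.coeff (k / 2) ≠ 0) ∧ (k % 2 = 1 → r.2.coeff (k / 2) ≠ 0)

theorem lev_one : Lev 0 ((1, 0) : F[X] × F[X]) := by
  refine ⟨fun i hi => ?_, fun i _ => coeff_zero i⟩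
  show (1 : F[X]).coeff i = 0
  rw [coeff_one, if_neg (by omega)]

theorem top_one : Top 0 ((1, 0) : F[X] × F[X]) := by
  refine ⟨fun _ => ?_, fun h => by omega⟩
  show (1 : F[X]).coeff (0 / 2) ≠ 0
  rw [Nat.zero_div, coeff_one_zero]
  exact one_ne_zero

theorem step_u {k : ℕ} {r : F[X] × F[X]} (hk : k % 2 = 0) (hL : Lev k r) (hT : Top k r) {α : F}
    (hα : α ≠ 0) : Lev (k + 1) (r.1, r.2 + C α * r.1) ∧ Top (k + 1) (r.1, r.2 + C α * r.1) := by
  refine ⟨⟨fun i hi => hL.1 i (by omega), fun i hi => ?_⟩, ⟨fun h => by omega, fun _ => ?_⟩⟩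
  · show (r.2 + C α * r.1).coeff i = 0
    rw [coeff_add, coeff_C_mul, hL.2 i (by omega), hL.1 i (by omega), mul_zero, add_zero]
  · show (r.2 + C α * r.1).coeff ((k + 1) / 2) ≠ 0
    have e : (k + 1) / 2 = k / 2 := by omega
    rw [coeff_add, coeff_C_mul, e, hL.2 (k / 2) (by omega), zero_add]
    exact mul_ne_zero hα (hT.1 hk)

theorem step_v {k : ℕ} {r : F[X] × F[X]} (hk : k % 2 = 1) (hL : Lev k r) (hT : Top k r) {β : F}
    (hβ : β ≠ 0) :
    Lev (k + 1) (r.1 + C β * (X * r.2), r.2) ∧ Top (k + 1) (r.1 + C β * (X * r.2), r.2) := by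
  refine ⟨⟨fun i hi => ?_, fun i hi => hL.2 i (by omega)⟩, ⟨fun _ => ?_, fun h => by omega⟩⟩
  · show (r.1 + C β * (X * r.2)).coeff i = 0
    obtain ⟨l, rfl⟩ : ∃ l, i = l + 1 := ⟨i - 1, by omega⟩
    rw [coeff_add, coeff_C_mul, coeff_X_mul, hL.1 (l + 1) (by omega), hL.2 l (by omega), mul_zero,
      add_zero]
  · show (r.1 + C β * (X * r.2)).coeff ((k + 1) / 2) ≠ 0
    have e : (k + 1) / 2 = k / 2 + 1 := by omega
    rw [coeff_add, coeff_C_mul, e, coeff_X_mul, hL.1 (k / 2 + 1) (by omega), zero_add]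
    exact mul_ne_zero hβ (hT.2 hk)

end Pool.Agent.Y422.TG
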